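import Mathlib
import Pool.Agent.Helper81.KeyPoly

/-!
# OC-12: cancelling cyclotomic factors

* `cancel`: induction on `D`: `Φ_d` divides `F * ∏_{D} Φ = ± ∏_M Φ`; `Φ_d` is prime in `ℤ[X]` (`cyclotomic.irreducible`, `Irreducible.prime`), so it divides some `Φ_N`,
  `N ∈ M` (`Prime.dvd_multiset_prod` or so), both are irreducible and monic, so they are equal and `d = N` (`cyclotomic_injective`); erase `N` from `M` and cancel.
* `key_not`: `X^w - 1 = ∏_{d ∣ w} Φ_d`; `keyVal * (1 - X^w) = P * (1 - X^3)`; so `keyVal` is `± ∏_{M'} Φ`; over `ℚ` this contradicts `keyVal_not_cyclotomic`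
  (Helper81/KeyPoly.lean; `keyVal_map`).  See `keyVal_not_prod` in Pool/Agent/Results/MP_54f4f3_gt/ThreeBraidTwistedTorus.lean for the passage from `ℤ` to `ℚ` (copy it,
  do not import the result file).
-/

set_option autoImplicit false

namespace Pool.Agent.Helper27.OC

open Polynomial Pool.Agent.Helper81

/-- A cyclotomic polynomial which divides a product of cyclotomic polynomials is one of them. -/
theorem exists_eq_of_dvd_prod (d : ℕ) (hd : 0 < d) (M : Multiset ℕ) (hM : ∀ N ∈ M, 0 < N)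
    (h : cyclotomic d ℤ ∣ (M.map (fun N => cyclotomic N ℤ)).prod) :
    ∃ N ∈ M, cyclotomic N ℤ = cyclotomic d ℤ := by
  have hp : Prime (cyclotomic d ℤ) := (cyclotomic.irreducible hd).prime
  obtain ⟨a, ha, hda⟩ := hp.exists_mem_multiset_map_dvd h
  refine ⟨a, ha, ?_⟩
  have ha' : Irreducible (cyclotomic a ℤ) := cyclotomic.irreducible (hM a ha)
  have has : Associated (cyclotomic d ℤ) (cyclotomic a ℤ) :=
    (cyclotomic.irreducible hd).associated_of_dvd ha' hda
  exact (eq_of_monic_of_associated (cyclotomic.monic d ℤ) (cyclotomic.monic a ℤ) has).symm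

theorem cancel (D M : Multiset ℕ) (hD : ∀ N ∈ D, 0 < N) (hM : ∀ N ∈ M, 0 < N) (F : ℤ[X])
    (h : F * (D.map (fun N => cyclotomic N ℤ)).prod = (M.map (fun N => cyclotomic N ℤ)).prod ∨
      F * (D.map (fun N => cyclotomic N ℤ)).prod = -(M.map (fun N => cyclotomic N ℤ)).prod) :
    ∃ M' : Multiset ℕ, (∀ N ∈ M', 0 < N) ∧
      (F = (M'.map (fun N => cyclotomic N ℤ)).prod ∨
        F = -(M'.map (fun N => cyclotomic N ℤ)).prod) := by
  induction D using Multiset.induction_on generalizing M F with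
  | empty =>
    refine ⟨M, hM, ?_⟩
    simpa using h
  | cons d D ih =>
    have hd : 0 < d := hD d (Multiset.mem_cons_self d D)
    have hD' : ∀ N ∈ D, 0 < N := fun N hN => hD N (Multiset.mem_cons_of_mem hN)
    have hdvd : cyclotomic d ℤ ∣ (M.map (fun N => cyclotomic N ℤ)).prod := by
      have h0 : cyclotomic d ℤ ∣ F * ((d ::ₘ D).map (fun N => cyclotomic N ℤ)).prod := by
        rw [Multiset.map_cons, Multiset.prod_cons]
        exact ⟨F * (D.map (fun N => cyclotomic N ℤ)).prod, by ring⟩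
      rcases h with h | h
      · rw [h] at h0
        exact h0
      · rw [h] at h0
        exact (dvd_neg).1 h0
    obtain ⟨N, hN, hNe⟩ := exists_eq_of_dvd_prod d hd M hM hdvd
    obtain ⟨M₁, rfl⟩ := Multiset.exists_cons_of_mem hN
    have hM₁ : ∀ N' ∈ M₁, 0 < N' := fun N' hN' => hM N' (Multiset.mem_cons_of_mem hN')
    have hne : cyclotomic d ℤ ≠ 0 := cyclotomic_ne_zero d ℤ
    rw [Multiset.map_cons, Multiset.prod_cons, Multiset.map_cons, Multiset.prod_cons, hNe] at h
    apply ih M₁ hD' hM₁ F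
    rcases h with h | h
    · left
      apply mul_left_cancel₀ hne
      rw [← h]
      ring
    · right
      apply mul_left_cancel₀ hne
      have h2 : cyclotomic d ℤ * -(M₁.map (fun N => cyclotomic N ℤ)).prod =
          -(cyclotomic d ℤ * (M₁.map (fun N => cyclotomic N ℤ)).prod) := by ring
      rw [h2, ← h]
      ring

theorem keyVal_not_prod' (k j : ℕ) (hk : 1 ≤ k) (hj3 : 3 ≤ j) (hj : Odd j) (M : Multiset ℕ)
    (hM : ∀ N ∈ M, 0 < N) :
    keyVal (3 * k + 2) j (X : ℤ[X]) ≠ (M.map (fun N => cyclotomic N ℤ)).prod ∧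
    keyVal (3 * k + 2) j (X : ℤ[X]) ≠ -(M.map (fun N => cyclotomic N ℤ)).prod := by
  have hmap : (keyVal (3 * k + 2) j (X : ℤ[X])).map (Int.castRingHom ℚ) =
      keyVal (3 * k + 2) j (X : ℚ[X]) := by
    have := keyVal_map (mapRingHom (Int.castRingHom ℚ)) (3 * k + 2) j (X : ℤ[X])
    simpa using this
  have hprod : ((M.map (fun N => cyclotomic N ℤ)).prod).map (Int.castRingHom ℚ) =
      (M.map (fun N => cyclotomic N ℚ)).prod := by
    have := map_multiset_prod (mapRingHom (Int.castRingHom ℚ)) (M.map (fun N => cyclotomic N ℤ))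
    rw [Multiset.map_map] at this
    simpa using this
  constructor
  · intro h
    have h1 := congrArg (Polynomial.map (Int.castRingHom ℚ)) h
    rw [hmap, hprod] at h1
    apply keyVal_not_cyclotomic k j hk hj3 hj M hM 1 one_ne_zero
    rw [h1, C_1, one_mul]
  · intro h
    have h1 := congrArg (Polynomial.map (Int.castRingHom ℚ)) h
    rw [Polynomial.map_neg, hmap, hprod] at h1
    apply keyVal_not_cyclotomic k j hk hj3 hj M hM (-1) (by norm_num)
    rw [h1, C_neg, C_1, neg_mul, one_mul]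

theorem prod_divisors_val (n : ℕ) (hn : 0 < n) :
    ((Nat.divisors n).val.map (fun N => cyclotomic N ℤ)).prod = X ^ n - 1 :=
  prod_cyclotomic_eq_X_pow_sub_one hn ℤ

theorem key_not (k j w : ℕ) (hk : 1 ≤ k) (hj3 : 3 ≤ j) (hj : Odd j) (hw : 0 < w) (P : ℤ[X])
    (hid : P * (1 - X ^ 3) = keyVal (3 * k + 2) j (X : ℤ[X]) * (1 - X ^ w))
    (M : Multiset ℕ) (hM : ∀ N ∈ M, 0 < N)
    (hP : P = (M.map (fun N => cyclotomic N ℤ)).prod ∨
      P = -(M.map (fun N => cyclotomic N ℤ)).prod) : False := by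
  have hid' : keyVal (3 * k + 2) j (X : ℤ[X]) * (X ^ w - 1) = P * (X ^ 3 - 1) := by
    linear_combination (-1 : ℤ[X]) * (-hid)
  have hD : ∀ N ∈ (Nat.divisors w).val, 0 < N := fun N hN =>
    Nat.pos_of_mem_divisors (Finset.mem_val ▸ hN)
  have hM2 : ∀ N ∈ M + (Nat.divisors 3).val, 0 < N := by
    intro N hN
    rcases Multiset.mem_add.1 hN with h | h
    · exact hM N h
    · exact Nat.pos_of_mem_divisors (Finset.mem_val ▸ h)
  obtain ⟨M', hM', h⟩ := cancel (Nat.divisors w).val (M + (Nat.divisors 3).val) hD hM2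
    (keyVal (3 * k + 2) j (X : ℤ[X])) (by
      rw [Multiset.map_add, Multiset.prod_add, prod_divisors_val w hw,
        prod_divisors_val 3 (by norm_num), hid']
      rcases hP with h | h
      · left
        rw [← h]
      · right
        rw [h]
        ring)
  have hnot := keyVal_not_prod' k j hk hj3 hj M' hM'
  rcases h with h | h
  · exact hnot.1 h
  · exact hnot.2 h

end Pool.Agent.Helper27.OC
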