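import Mathlib
import Pool.Agent.Helper62.OB.Count
import Pool.Agent.Helper62.OB.Root

/-!
# OC-3a: basic facts on the orbit

* `add_se_mod`: induction on `j`: `xs (k + 1) = (cb b (xs k) + t) % w` (`xs_succ`), `cb b x = x + 1`, `0`, `x` for `x < b`, `x = b`, `x > b`; `xs k ≠ b` for
  `k < w - 1` (`xs_ne`); `se (k + 1) = se k + t + ep k` (`se_succ`, file OB/St/AlexKey.lean or so).
* `se_ne_w`: otherwise `xs j = (t + w) % w = xs 0`, so `j = 0`, `se 0 = 0 ≠ w`.
* `se_last`: `se_eq`, `sum_ep`.
-/

set_option autoImplicit false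

namespace Pool.Agent.Helper27.OC

open Finset Polynomial Pool.Agent.Helper62.OB

/-- the number of complete turns made before step `j` -/
def qq (w b t j : ℕ) : ℕ := (t + se w b t j) / w

theorem se_zero (w b t : ℕ) : se w b t 0 = 0 := by
  simp [se]

theorem add_se_mod {w b t : ℕ} (hb : b < w) (h : Orb w b t) {j : ℕ} (hj : j < w) :
    (t + se w b t j) % w = xs w b t j := by
  induction j with
  | zero =>
    rw [se_zero, add_zero]
    rfl
  | succ k ih =>
    have h1 := ih (by omega)
    have h2 := xs_ne h (show k < w - 1 by omega)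
    have h3 : cb b (xs w b t k) = xs w b t k + ep w b t k := by
      unfold cb ep
      split_ifs with h4
      · rfl
      · rw [add_zero]
    rw [xs_succ, h3, se_succ]
    have h5 : t + (se w b t k + t + ep w b t k) = (t + se w b t k) + (ep w b t k + t) := by ring
    rw [h5, add_assoc (xs w b t k), ← h1]
    exact (Nat.mod_add_mod _ _ _).symm

theorem add_se {w b t : ℕ} (hb : b < w) (h : Orb w b t) {j : ℕ} (hj : j < w) :
    t + se w b t j = xs w b t j + w * qq w b t j := by
  rw [← add_se_mod hb h hj]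
  exact (Nat.mod_add_div _ _).symm

theorem se_lt_succ {w b t : ℕ} (ht : 1 ≤ t) (k : ℕ) : se w b t k < se w b t (k + 1) := by
  rw [se_succ]
  omega

theorem se_strictMono {w b t : ℕ} (ht : 1 ≤ t) : StrictMono (se w b t) :=
  strictMono_nat_of_lt_succ fun k => se_lt_succ ht k

theorem se_ne_w {w b t : ℕ} (hb : b < w) (ht : 1 ≤ t) (h : Orb w b t) (hw2 : 2 ≤ w) {j : ℕ}
    (hj : j < w) : se w b t j ≠ w := by
  intro h1
  have h2 := add_se_mod hb h hj
  rw [h1, Nat.add_mod_right] at h2
  have h3 : xs w b t 0 = xs w b t j := h2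
  have h4 := h.1 0 (by omega) j hj h3
  rw [← h4, se_zero] at h1
  omega

/-- the last place visited, `t w + b` -/
theorem se_last {w b t : ℕ} (hb : b < w) (h : Orb w b t) :
    t + se w b t (w - 1) = w * t + b := by
  have h1 : ∑ j ∈ range (w - 1), ep w b t j = b := sum_ep hb h
  obtain ⟨v, rfl⟩ : ∃ v, w = v + 1 := ⟨w - 1, by omega⟩
  unfold se
  rw [h1, Nat.add_sub_cancel]
  ring

end Pool.Agent.Helper27.OC
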