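import Mathlib
import Pool.Agent.Helper27.OC.Seq
import Pool.Agent.Helper62.OB.St.Comb

/-!
# OC-5: combinatorics on the `g`-fold circle, first case

Let `W = w g` and `f 0 = 0`, `f (k + 1) = cb b ((f k + t) % W)` (define it by recursion).  Claim: `f k = se w b t k % W` for `k < w`.  Induction: let
`v = (f k + t) % W = (t + se k) % W`, `k < w - 1`; `v % w = xs k` (`add_se_mod`, `Nat.mod_mod_of_dvd`).  If `xs k < b` then `g ∣ qq k`, so
`t + se k = xs k + w qq k` (`add_se`) gives `v = xs k < b` and `cb b v = v + 1 = se (k + 1) % W` (`se_succ`: `se (k + 1) = se k + t + ep k`; `v + 1 ≤ b < W`).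
If `xs k > b` then `v ≥ v % w > b`, so `cb b v = v = se (k + 1) % W`.  (`xs k ≠ b` by `xs_ne`.)
For `k = w - 1`: `t + se (w - 1) = w t + b` (`se_last`) and `g ∣ t`, so `v = b` and `f w = cb b b = 0`.
`f` is injective on `k < w`: modulo `w`, `f k + t` is `xs k`.  Every `r ≤ b` is `f k` for some `k < w`: `f 0 = 0`, and for `r ≥ 1` take `j < w - 1` with
`xs j = r - 1` (`xs_surj`); then `f (j + 1) = r`.
`c4` (OB/St/Comb.lean) with `w := W`, `n := w`, `B := b`, `e := t`: `gcd W t = g (b + 1)`; so `g (b + 1) ∣ w g` and `g (b + 1) ∣ t`.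
-/

set_option autoImplicit false

namespace Pool.Agent.Helper27.OC

open Finset Pool.Agent.Helper62.OB

/-- the sequence on the `g`-fold circle -/
def combA_f (W b t : ℕ) : ℕ → ℕ
  | 0 => 0
  | k + 1 => cb b ((combA_f W b t k + t) % W)

theorem combA_add (w b t g : ℕ) (k : ℕ) (hk : combA_f (w * g) b t k = se w b t k % (w * g)) :
    (combA_f (w * g) b t k + t) % (w * g) = (t + se w b t k) % (w * g) := by
  rw [hk, Nat.mod_add_mod, add_comm]

theorem combA_low (w b t g : ℕ) (hb : b < w) (h : Orb w b t) (hg : 2 ≤ g)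
    (hq : ∀ j < w - 1, xs w b t j < b → g ∣ qq w b t j) {k : ℕ} (hk : k < w - 1)
    (hx : xs w b t k < b) :
    ∃ c, t + se w b t k = xs w b t k + w * g * c := by
  obtain ⟨c, hc⟩ := hq k hk hx
  refine ⟨c, ?_⟩
  rw [add_se hb h (show k < w by omega), hc, mul_assoc]

theorem combA_lt (w g : ℕ) (hg : 2 ≤ g) {x : ℕ} (hx : x < w) : x < w * g :=
  lt_of_lt_of_le hx (Nat.le_mul_of_pos_right w (by omega))

theorem combA_step (w b t g : ℕ) (hb : b < w) (h : Orb w b t) (hg : 2 ≤ g)
    (hq : ∀ j < w - 1, xs w b t j < b → g ∣ qq w b t j) {k : ℕ} (hk : k < w - 1)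
    (ih : combA_f (w * g) b t k = se w b t k % (w * g)) :
    combA_f (w * g) b t (k + 1) = se w b t (k + 1) % (w * g) ∧
      (xs w b t k < b → combA_f (w * g) b t (k + 1) = xs w b t k + 1) := by
  have hne := xs_ne h hk
  have hadd := combA_add w b t g k ih
  have h1 : combA_f (w * g) b t (k + 1) = cb b ((t + se w b t k) % (w * g)) := by
    rw [← hadd]
    rfl
  by_cases hx : xs w b t k < b
  · obtain ⟨c, hc⟩ := combA_low w b t g hb h hg hq hk hx
    have hv : (t + se w b t k) % (w * g) = xs w b t k := by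
      rw [hc, Nat.add_mul_mod_self_left]
      exact Nat.mod_eq_of_lt (combA_lt w g hg (by omega))
    have h2 : combA_f (w * g) b t (k + 1) = xs w b t k + 1 := by
      rw [h1, hv]
      unfold cb
      rw [if_pos hx]
    refine ⟨?_, fun _ => h2⟩
    rw [h2, se_succ]
    have h3 : ep w b t k = 1 := by
      unfold ep
      rw [if_pos hx]
    have h4 : se w b t k + t + ep w b t k = (xs w b t k + 1) + w * g * c := by
      rw [h3]
      omega
    rw [h4, Nat.add_mul_mod_self_left]
    exact (Nat.mod_eq_of_lt (combA_lt w g hg (by omega))).symm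
  · refine ⟨?_, fun h => absurd h hx⟩
    have h2 : (t + se w b t k) % (w * g) % w = xs w b t k := by
      rw [Nat.mod_mod_of_dvd _ ⟨g, rfl⟩]
      exact add_se_mod hb h (by omega)
    have h3 : (t + se w b t k) % (w * g) % w ≤ (t + se w b t k) % (w * g) := Nat.mod_le _ _
    rw [h1]
    unfold cb
    rw [if_neg (by omega), if_neg (by omega), se_succ]
    have h4 : ep w b t k = 0 := by
      unfold ep
      rw [if_neg hx]
    rw [h4, add_zero, add_comm t]

theorem combA_eq (w b t g : ℕ) (hb : b < w) (h : Orb w b t) (hg : 2 ≤ g)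
    (hq : ∀ j < w - 1, xs w b t j < b → g ∣ qq w b t j) :
    ∀ k < w, combA_f (w * g) b t k = se w b t k % (w * g) := by
  intro k
  induction k with
  | zero =>
    intro _
    rw [se_zero, Nat.zero_mod]
    rfl
  | succ k ih =>
    intro hk
    exact (combA_step w b t g hb h hg hq (by omega) (ih (by omega))).1

theorem combA (w b t g : ℕ) (hb : b < w) (hw2 : 2 ≤ w) (ht : 1 ≤ t) (h : Orb w b t) (hg : 2 ≤ g)
    (hgt : g ∣ t) (hq : ∀ j < w - 1, xs w b t j < b → g ∣ qq w b t j) :
    (b + 1) ∣ w ∧ (b + 1) ∣ t := by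
  have heq := combA_eq w b t g hb h hg hq
  have hW0 : 0 < w * g := Nat.mul_pos (by omega) (by omega)
  have hxs : ∀ k < w, (combA_f (w * g) b t k + t) % w = xs w b t k := by
    intro k hk
    have h1 : (combA_f (w * g) b t k + t) % (w * g) % w = (combA_f (w * g) b t k + t) % w :=
      Nat.mod_mod_of_dvd _ ⟨g, rfl⟩
    rw [← h1, combA_add w b t g k (heq k hk), Nat.mod_mod_of_dvd _ ⟨g, rfl⟩]
    exact add_se_mod hb h hk
  have hper : combA_f (w * g) b t w = 0 := by
    obtain ⟨n, hn⟩ : ∃ n, w = n + 1 := ⟨w - 1, by omega⟩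
    have h1 : combA_f (w * g) b t (n + 1) = cb b ((t + se w b t n) % (w * g)) := by
      rw [← combA_add w b t g n (heq n (by omega))]
      rfl
    have h2 := se_last hb h
    have h3 : w - 1 = n := by omega
    rw [h3] at h2
    have h4 : (t + se w b t n) % (w * g) = b := by
      obtain ⟨c, hc⟩ := hgt
      have h5 : w * t + b = b + w * g * c := by
        rw [hc]
        ring
      rw [h2, h5, Nat.add_mul_mod_self_left]
      exact Nat.mod_eq_of_lt (combA_lt w g hg hb)
    have h5 : combA_f (w * g) b t w = combA_f (w * g) b t (n + 1) := congrArg _ hn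
    rw [h5, h1, h4]
    unfold cb
    rw [if_neg (lt_irrefl b), if_pos rfl]
  have hgcd := c4 (w * g) w g b t (combA_f (w * g) b t) rfl hW0 hg (combA_lt w g hg hb) rfl
    (fun _ => rfl) hper
    (by
      intro i hi j hj hij
      refine h.1 i hi j hj ?_
      rw [← hxs i hi, ← hxs j hj, hij])
    (by
      intro r hr
      rcases Nat.eq_zero_or_pos r with h0 | h0
      · exact ⟨0, by omega, h0.symm⟩
      · obtain ⟨j, hj, hj2⟩ := xs_surj (by omega) h (r - 1) (by omega)
        have hj3 : j < w - 1 := by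
          by_contra hcon
          have h4 : j = w - 1 := by omega
          rw [h4, h.2] at hj2
          omega
        refine ⟨j + 1, by omega, ?_⟩
        rw [(combA_step w b t g hb h hg hq hj3 (heq j hj)).2 (by omega), hj2]
        omega)
  have hg0 : 0 < g := by omega
  constructor
  · have h1 : g * (b + 1) ∣ w * g := hgcd ▸ Nat.gcd_dvd_left (w * g) t
    rw [mul_comm w g] at h1
    exact Nat.dvd_of_mul_dvd_mul_left hg0 h1
  · have h1 : g * (b + 1) ∣ t := hgcd ▸ Nat.gcd_dvd_right (w * g) t
    exact (Dvd.intro_left g rfl).trans h1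

end Pool.Agent.Helper27.OC
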