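import Mathlib
import Pool.Agent.Helper27.OC.Seq
import Pool.Agent.Helper62.OB.St.Comb

/-!
# OC-6: combinatorics on the `g`-fold circle, second case

Let `W = w g`, `B = w - 1 - b`, `e = (W - 1) (t + 1)` (so `e ≡ -(t + 1)` modulo `W`) and `f 0 = 0`, `f (k + 1) = cb B ((f k + e) % W)` (define it by
recursion).  Claim: `f k ≡ - se w b t k` modulo `W`, `f k < W`, for `k < w`.  Let `y = (f k + e) % W ≡ -1 - (t + se k)`, `k < w - 1`.
With `t + se k = xs k + w qq k` (`add_se`): `y % w = w - 1 - xs k`.
If `xs k > b`: `g ∣ qq k + 1`, so `y = w - 1 - xs k < B` (indeed `-1 - xs k - w qq k = (w - 1 - xs k) - w (qq k + 1)`), `cb B y = y + 1 ≡ -(t + se k) = - se (k + 1)`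
(`ep k = 0`).  If `xs k < b`: `y ≥ y % w > B`, `cb B y = y ≡ -(t + se k + 1) = - se (k + 1)` (`ep k = 1`).
For `k = w - 1`: `t + se (w - 1) = w t + b` (`se_last`) and `g ∣ t + 1`: `-1 - w t - b = (w - 1 - b) - w (t + 1)`, so `y = B` and `f w = 0`.
`f` is injective on `k < w` (modulo `w`, `-1 - t - ...`).  Every `r ≤ B` is `f k` for some `k < w`: `f 0 = 0`, and for `r ≥ 1` take `j < w - 1` with
`xs j = w - r > b` (`xs_surj`); then `y = r - 1` and `f (j + 1) = r`.
`c4` (OB/St/Comb.lean) with `w := W`, `n := w`: `gcd W e = g (B + 1) = g (w - b)`; so `w - b ∣ w` and `g (w - b) ∣ (W - 1) (t + 1)`; `g (w - b)` divides `W`, so it is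
prime to `W - 1` and `w - b ∣ t + 1`.  Model: the end of `condB` in OB/Cond.lean.
-/

set_option autoImplicit false

namespace Pool.Agent.Helper27.OC

open Finset Pool.Agent.Helper62.OB

/-- the sequence on the `g`-fold circle -/
def fB (W B e : ℕ) : ℕ → ℕ
  | 0 => 0
  | k + 1 => cb B ((fB W B e k + e) % W)

theorem combB_se_succ (w b t k : ℕ) : se w b t (k + 1) = se w b t k + t + ep w b t k := by
  unfold se
  rw [Finset.sum_range_succ]
  ring

/-- the congruence satisfied by the intermediate value -/
theorem combB_y (W t a s : ℕ) (hW : 0 < W) (h : W ∣ a + s) :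
    W ∣ (a + (W - 1) * (t + 1)) % W + 1 + (t + s) := by
  have h1 : (a + (W - 1) * (t + 1)) % W ≡ a + (W - 1) * (t + 1) [MOD W] := Nat.mod_modEq _ _
  have h2 : (a + (W - 1) * (t + 1)) % W + (1 + (t + s)) ≡
      a + (W - 1) * (t + 1) + (1 + (t + s)) [MOD W] := h1.add_right _
  have h3 : a + (W - 1) * (t + 1) + (1 + (t + s)) = (a + s) + W * (t + 1) := by
    obtain ⟨W', rfl⟩ : ∃ W', W = W' + 1 := ⟨W - 1, by omega⟩
    rw [Nat.add_sub_cancel]
    ring
  rw [h3] at h2
  have h4 : (a + s) + W * (t + 1) ≡ 0 [MOD W] :=
    (Nat.modEq_zero_iff_dvd).2 (dvd_add h (dvd_mul_right _ _))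
  have h5 := (Nat.modEq_zero_iff_dvd).1 (h2.trans h4)
  rwa [← add_assoc] at h5

/-- if the number of turns is right, the value is small -/
theorem combB_eq (w g x q y : ℕ) (hg : 0 < g) (hw : 0 < w) (hx : x < w) (hy : y < w * g)
    (hq : g ∣ q + 1) (h : w * g ∣ y + 1 + (x + w * q)) : y = w - 1 - x := by
  have h1 : w * g ∣ w * (q + 1) := mul_dvd_mul_left w hq
  obtain ⟨c, hc⟩ := h
  obtain ⟨c', hc'⟩ := h1
  have hwg : w ≤ w * g := Nat.le_mul_of_pos_right w hg
  have h2 : y + 1 + x + w * g * c' = w * g * c + w := by
    have h3 : w * (q + 1) = w * q + w := by ring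
    omega
  have h4 : c = c' := by
    rcases lt_trichotomy c c' with h5 | h5 | h5
    · have h6 : w * g * (c + 1) ≤ w * g * c' := Nat.mul_le_mul_left _ h5
      have h7 : w * g * (c + 1) = w * g * c + w * g := by ring
      omega
    · exact h5
    · have h6 : w * g * (c' + 1) ≤ w * g * c := Nat.mul_le_mul_left _ h5
      have h7 : w * g * (c' + 1) = w * g * c' + w * g := by ring
      omega
  rw [h4] at h2
  omega

theorem combB (w b t g : ℕ) (hb : b < w) (hw2 : 2 ≤ w) (ht : 1 ≤ t) (h : Orb w b t) (hg : 2 ≤ g)
    (hgt : g ∣ t + 1) (hq : ∀ j < w - 1, b < xs w b t j → g ∣ qq w b t j + 1) :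
    (w - b) ∣ w ∧ (w - b) ∣ (t + 1) := by
  have hw : 0 < w := by omega
  have hg0 : 0 < g := by omega
  have hW : 0 < w * g := Nat.mul_pos hw hg0
  have hwW : w ≤ w * g := Nat.le_mul_of_pos_right w hg0
  have hdW : w ∣ w * g := dvd_mul_right w g
  set B := w - 1 - b with hB
  set e := (w * g - 1) * (t + 1) with he
  set f := fB (w * g) B e with hf
  have f0 : f 0 = 0 := rfl
  have fs : ∀ k, f (k + 1) = cb B ((f k + e) % (w * g)) := fun k => rfl
  have hxlt : ∀ k < w, xs w b t k < w := by
    intro k hk
    rw [← add_se_mod hb h hk]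
    exact Nat.mod_lt _ hw
  -- the value in the case of a large place
  have big : ∀ k, k < w - 1 → w * g ∣ f k + se w b t k → b < xs w b t k →
      (f k + e) % (w * g) = w - 1 - xs w b t k := by
    intro k hk hd hx
    have h1 := combB_y (w * g) t (f k) (se w b t k) hW hd
    rw [add_se hb h (show k < w by omega)] at h1
    exact combB_eq w g _ _ _ hg0 hw (hxlt k (by omega)) (Nat.mod_lt _ hW) (hq k hk hx) h1
  have claim : ∀ k, k < w → w * g ∣ f k + se w b t k := by
    intro k
    induction k with
    | zero =>
      intro _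
      rw [f0, se_zero]
      exact dvd_zero _
    | succ k ih =>
      intro hk
      have hd := ih (by omega)
      have h1 := combB_y (w * g) t (f k) (se w b t k) hW hd
      have h2 := xs_ne h (show k < w - 1 by omega)
      rcases Nat.lt_or_ge b (xs w b t k) with h3 | h3
      · have h4 := big k (by omega) hd h3
        have h5 : f (k + 1) = (f k + e) % (w * g) + 1 := by
          rw [fs, h4]
          unfold cb
          rw [if_pos (by have := hxlt k (by omega); omega)]
        have h6 : ep w b t k = 0 := by
          unfold ep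
          rw [if_neg (by omega)]
        rw [combB_se_succ, h6, h5, add_zero, add_comm (se w b t k) t]
        exact h1
      · have h3' : xs w b t k < b := by omega
        have h4 : w ∣ (f k + e) % (w * g) + 1 + (t + se w b t k) := hdW.trans h1
        rw [add_se hb h (show k < w by omega)] at h4
        have h5 : B < (f k + e) % (w * g) := by
          set y := (f k + e) % (w * g) with hy
          set x := xs w b t k with hx
          by_contra h6
          have h7 : w ∣ (y + 1 + x) + w * qq w b t k := by
            rw [add_assoc]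
            exact h4
          have h8 : w ∣ y + 1 + x := (Nat.dvd_add_left (dvd_mul_right w _)).1 h7
          have h9 := Nat.le_of_dvd (by omega) h8
          omega
        have h6 : f (k + 1) = (f k + e) % (w * g) := by
          rw [fs]
          unfold cb
          rw [if_neg (by omega), if_neg (by omega)]
        have h7 : ep w b t k = 1 := by
          unfold ep
          rw [if_pos h3']
        have h8 : f (k + 1) + se w b t (k + 1) =
            (f k + e) % (w * g) + 1 + (t + se w b t k) := by
          rw [combB_se_succ, h7, h6]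
          ring
        rw [h8]
        exact h1
  have fw : f w = 0 := by
    have h1 := combB_y (w * g) t (f (w - 1)) (se w b t (w - 1)) hW (claim _ (by omega))
    rw [se_last hb h, add_comm (w * t) b] at h1
    have h2 := combB_eq w g b t _ hg0 hw hb (Nat.mod_lt _ hW) hgt h1
    have h3 : w = (w - 1) + 1 := by omega
    have h4 : f ((w - 1) + 1) = 0 := by
      rw [fs, show (f (w - 1) + e) % (w * g) = B from h2]
      unfold cb
      rw [if_neg (lt_irrefl _), if_pos rfl]
    rwa [← h3] at h4
  have key := c4 (w * g) w g B e f rfl hW hg (by omega) f0 fs fw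
    (by
      intro i hi j hj hij
      apply h.1 i hi j hj
      rw [← add_se_mod hb h hi, ← add_se_mod hb h hj]
      have h1 : w ∣ f i + se w b t i := hdW.trans (claim i hi)
      have h2 : w ∣ f i + se w b t j := by
        rw [hij]
        exact hdW.trans (claim j hj)
      have h3 : f i + se w b t i ≡ f i + se w b t j [MOD w] :=
        ((Nat.modEq_zero_iff_dvd).2 h1).trans ((Nat.modEq_zero_iff_dvd).2 h2).symm
      have h4 : se w b t i ≡ se w b t j [MOD w] := Nat.ModEq.add_left_cancel' _ h3
      exact h4.add_left t)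
    (by
      intro r hr
      rcases Nat.eq_zero_or_pos r with h1 | h1
      · exact ⟨0, hw, by rw [h1, f0]⟩
      · obtain ⟨j, hj, hj2⟩ := xs_surj hw h (w - r) (by omega)
        have h2 : j ≠ w - 1 := by
          intro h3
          rw [h3, h.2] at hj2
          omega
        have h3 : j < w - 1 := by omega
        have h4 := big j h3 (claim j hj) (by omega)
        refine ⟨j + 1, by omega, ?_⟩
        rw [fs, h4, hj2]
        unfold cb
        rw [if_pos (by omega)]
        omega)
  have hB1 : B + 1 = w - b := by omega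
  rw [hB1] at key
  have d1 : g * (w - b) ∣ w * g := key ▸ Nat.gcd_dvd_left _ _
  have d2 : g * (w - b) ∣ e := key ▸ Nat.gcd_dvd_right _ _
  refine ⟨?_, ?_⟩
  · rw [mul_comm w g] at d1
    exact Nat.dvd_of_mul_dvd_mul_left hg0 d1
  · have h1 : Nat.Coprime (g * (w - b)) (w * g - 1) := by
      have h2 : Nat.Coprime (w * g) (w * g - 1) := by
        have h3 : w * g = (w * g - 1) + 1 := by omega
        rw [h3, Nat.add_sub_cancel]
        exact (Nat.coprime_self_add_left).2 (Nat.coprime_one_left _)
      exact Nat.Coprime.coprime_dvd_left d1 h2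
    have h2 : g * (w - b) ∣ t + 1 := h1.dvd_of_dvd_mul_left d2
    exact (dvd_mul_left _ _).trans h2

end Pool.Agent.Helper27.OC
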