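import Mathlib
import Pool.Agent.Helper62.OB.St.Dvd

/-!
# OC-1a: coefficients of logarithmic derivatives of cyclotomic polynomials

The plan for `exists_mult` (file `Ex`).  Here: `cyc_coeff`, `mult_coeff`.  Model: `exists_dvd` at the end of `Pool/Agent/Helper62/OB/St/Dvd.lean` (logarithmic
derivative `dvd_ld f = X f' / f` in `PowerSeries ℚ`).
* `cyc_coeff` = `dvd_cyclotomic_coeff` with the additional clause `c N = -N`: same proof, in `c d = (if d = N then -N else 0) -
  ∑ e ∈ N.properDivisors, c e d` the second sum vanishes at `d = N` because `N ∤ e`.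
* `mult_coeff` = `dvd_multiset_coeff` with the additional clause: if every `N ∈ M` with `w ∣ N` is `w`, then `c w = -(w * M.count w)`:
  induction on `M`.
* `one_sub_coeff`: the same for `1 - X^a` (`dvd_ld (1 - X^a) = dvd_ld (X^a - 1)` by `dvd_ld_neg`, `dvd_ld_X_pow_sub_one`): coefficient `m` is
  `∑ d ∈ m.divisors, if d = a then -a else 0`.
* `low_coeff`: if `f` has constant coefficient `1` and `coeff_m f = 0` for `0 < m < A`, then coefficient `m` of `dvd_ld f` is `m coeff_m f` for
  `0 < m < 2 A`.  Proof: strong induction from `dvd_ld f * f = X f'` (`dvd_ld_mul_self`): coefficient `m`: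
  `∑_{i + j = m} ld_i f_j = m f_m`; the terms with `0 < j < A` vanish, those with `A ≤ j`, `0 < i` have `i < A`, so `ld_i = i f_i = 0`, and `ld_0 = 0`.
* Conclusion: `f = P (1 - X^a)` over `ℚ`; `dvd_ld f = dvd_ld P + dvd_ld (1 - X^a)`, so for `m > 0` coefficient `m` is `∑ d ∈ m.divisors, c' d`,
  `c' d = c d + (if d = a then -a else 0)`.  For `0 < m < A` it is `0`, so `c' m = 0` by strong induction.  For `m = w`: `w coeff_w f = 0`, all proper
  divisors of `w` are `≤ w / 2 < A`, so `c' w = 0`, that is `c w = 0` (`a ≠ w`), but `c w = - w * count ≠ 0` as `w ∈ M`.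
-/

set_option autoImplicit false

namespace Pool.Agent.Helper27.OC

open Polynomial Pool.Agent.Helper62.OB

theorem cyc_coeff (N : ℕ) (hN : 0 < N) :
    ∃ c : ℕ → ℚ, (∀ d, ¬ d ∣ N → c d = 0) ∧ c N = -(N : ℚ) ∧
      ∀ m : ℕ, m ≠ 0 → PowerSeries.coeff m (dvd_ld (cyclotomic N ℚ)) = ∑ d ∈ m.divisors, c d := by
  have hpd : ∀ e : ℕ, ∃ c : ℕ → ℚ, e ∈ N.properDivisors → ((∀ d, ¬ d ∣ e → c d = 0) ∧
      ∀ m : ℕ, m ≠ 0 →
        PowerSeries.coeff m (dvd_ld (cyclotomic e ℚ)) = ∑ d ∈ m.divisors, c d) := by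
    intro e
    by_cases he : e ∈ N.properDivisors
    · have he' := Nat.mem_properDivisors.mp he
      obtain ⟨c, hc⟩ := dvd_cyclotomic_coeff e (Nat.pos_of_dvd_of_pos he'.1 hN)
      exact ⟨c, fun _ => hc⟩
    · exact ⟨fun _ => 0, fun h => absurd h he⟩
  choose c hc using hpd
  refine ⟨fun d => (if d = N then -(N : ℚ) else 0) - ∑ e ∈ N.properDivisors, c e d, ?_, ?_, ?_⟩
  · intro d hd
    have h1 : d ≠ N := by rintro rfl; exact hd dvd_rfl
    have h2 : ∑ e ∈ N.properDivisors, c e d = 0 := by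
      apply Finset.sum_eq_zero
      intro e he
      apply (hc e he).1
      intro hde
      exact hd (hde.trans (Nat.mem_properDivisors.mp he).1)
    simp only [h1, if_false, h2, sub_zero]
  · have h2 : ∑ e ∈ N.properDivisors, c e N = 0 := by
      apply Finset.sum_eq_zero
      intro e he
      apply (hc e he).1
      intro hde
      have he' := Nat.mem_properDivisors.mp he
      exact absurd (Nat.le_of_dvd (Nat.pos_of_dvd_of_pos he'.1 hN) hde) (not_le.2 he'.2)
    show (if N = N then -(N : ℚ) else 0) - ∑ e ∈ N.properDivisors, c e N = -(N : ℚ)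
    rw [if_pos rfl, h2, sub_zero]
  · intro m hm
    have hprod := prod_cyclotomic_eq_X_pow_sub_one hN ℚ
    have hld := congrArg dvd_ld hprod
    rw [dvd_ld_finset_prod _ _ (fun i _ => dvd_cyclotomic_coeff_zero_ne i),
      dvd_ld_X_pow_sub_one hN, ← Nat.cons_self_properDivisors hN.ne', Finset.sum_cons] at hld
    have e1 := congrArg (PowerSeries.coeff m) hld
    rw [map_add, map_sum, PowerSeries.coeff_mk] at e1
    have e2 : ∑ e ∈ N.properDivisors, PowerSeries.coeff m (dvd_ld (cyclotomic e ℚ)) =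
        ∑ e ∈ N.properDivisors, ∑ d ∈ m.divisors, c e d :=
      Finset.sum_congr rfl (fun e he => (hc e he).2 m hm)
    rw [e2] at e1
    have e3 : PowerSeries.coeff m (dvd_ld (cyclotomic N ℚ)) =
        (if m ≠ 0 ∧ N ∣ m then -(N : ℚ) else 0) -
          ∑ e ∈ N.properDivisors, ∑ d ∈ m.divisors, c e d := by
      rw [← e1]; ring
    rw [e3, Finset.sum_sub_distrib, Finset.sum_comm]
    congr 1
    rw [Finset.sum_ite_eq' m.divisors N (fun _ => -(N : ℚ))]
    have h1 : (m ≠ 0 ∧ N ∣ m) ↔ N ∈ m.divisors := by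
      rw [Nat.mem_divisors]; exact and_comm
    by_cases h2 : N ∈ m.divisors
    · rw [if_pos (h1.mpr h2), if_pos h2]
    · rw [if_neg (fun h => h2 (h1.mp h)), if_neg h2]

theorem mult_coeff (M : Multiset ℕ) (hM : ∀ N ∈ M, 0 < N) (w : ℕ) (hw : ∀ N ∈ M, w ∣ N → N = w) :
    ∃ c : ℕ → ℚ, c w = -((w : ℚ) * M.count w) ∧
      ∀ m : ℕ, m ≠ 0 →
        PowerSeries.coeff m (dvd_ld ((M.map (fun N => cyclotomic N ℚ)).prod)) =
          ∑ d ∈ m.divisors, c d := by
  induction M using Multiset.induction_on with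
  | empty =>
    refine ⟨fun _ => 0, ?_, ?_⟩
    · rw [Multiset.count_zero, Nat.cast_zero, mul_zero, neg_zero]
    · intro m _
      rw [Multiset.map_zero, Multiset.prod_zero, dvd_ld_one, map_zero, Finset.sum_const_zero]
  | cons a s ih =>
    obtain ⟨c1, h1, h1'⟩ := ih (fun N hN => hM N (Multiset.mem_cons_of_mem hN))
      (fun N hN => hw N (Multiset.mem_cons_of_mem hN))
    obtain ⟨c2, h2, h3, h2'⟩ := cyc_coeff a (hM a (Multiset.mem_cons_self _ _))
    refine ⟨fun d => c2 d + c1 d, ?_, ?_⟩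
    · show c2 w + c1 w = _
      rw [h1]
      by_cases haw : w = a
      · subst haw
        rw [h3, Multiset.count_cons_self]
        push_cast
        ring
      · have h4 : ¬ w ∣ a := fun h => haw (hw a (Multiset.mem_cons_self _ _) h).symm
        rw [h2 w h4, Multiset.count_cons_of_ne haw, zero_add]
    · intro m hm
      rw [Multiset.map_cons, Multiset.prod_cons, dvd_ld_mul (dvd_cyclotomic_coeff_zero_ne a)
        (dvd_coeff_zero_multiset_prod s _ (fun i _ => dvd_cyclotomic_coeff_zero_ne i)),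
        map_add, h1' m hm, h2' m hm, Finset.sum_add_distrib]

end Pool.Agent.Helper27.OC
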