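import Mathlib
import Pool.Agent.Helper62.OB.St.Dvd
import Pool.Agent.Helper27.OC.ExA

/-!
# OC-1b: existence of a cyclotomic factor of order a proper multiple of `w`

Here: `low_coeff`, `exists_mult` (`cyc_coeff`, `mult_coeff` are in the file `ExA`, proved by somebody else).
Proof of `exists_mult`.  Suppose not.  Model: `exists_dvd` at the end of `Pool/Agent/Helper62/OB/St/Dvd.lean` (logarithmic
derivative `dvd_ld f = X f' / f` in `PowerSeries ℚ`).
* `cyc_coeff` = `dvd_cyclotomic_coeff` with the additional clause `c N = -N`: same proof, in `c d = (if d = N then -N else 0) -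
  ∑ e ∈ N.properDivisors, c e d` the second sum vanishes at `d = N` because `N ∤ e`.
* `mult_coeff` = `dvd_multiset_coeff` with the additional clause: if every `N ∈ M` with `w ∣ N` is `w`, then `c w = -(w * M.count w)`:
  induction on `M`.
* `one_sub_coeff`: the same for `1 - X^a` (`dvd_ld (1 - X^a) = dvd_ld (X^a - 1)` by `dvd_ld_neg`, `dvd_ld_X_pow_sub_one`): coefficient `m` is
  `∑ d ∈ m.divisors, if d = a then -a else 0`.
* `low_coeff`: if `f` has constant coefficient `1` and `coeff_m f = 0` for `0 < m < A`, then coefficient `m` of `dvd_ld f` is `m coeff_m f` for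
  `0 < m < 2 A`.  Proof: strong induction from `dvd_ld f * f = X f'` (`dvd_ld_mul_self`): coefficient `m`:
  `∑_{i + j = m} ld_i f_j = m f_m`; the terms with `0 < j < A` vanish, those with `A ≤ j`, `0 < i` have `i < A`, so `ld_i = i f_i = 0`, and `ld_0 = 0`.
* Conclusion: `f = P (1 - X^a)` over `ℚ`; `dvd_ld f = dvd_ld P + dvd_ld (1 - X^a)`, so for `m > 0` coefficient `m` is `∑ d ∈ m.divisors, c' d`,
  `c' d = c d + (if d = a then -a else 0)`.  For `0 < m < A` it is `0`, so `c' m = 0` by strong induction.  For `m = w`: `w coeff_w f = 0`, all proper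
  divisors of `w` are `≤ w / 2 < A`, so `c' w = 0`, that is `c w = 0` (`a ≠ w`), but `c w = - w * count ≠ 0` as `w ∈ M`.
-/

set_option autoImplicit false

namespace Pool.Agent.Helper27.OC

open Polynomial Pool.Agent.Helper62.OB

theorem low_coeff (f : ℚ[X]) (A : ℕ) (h0 : f.coeff 0 = 1) (h1 : ∀ m, 0 < m → m < A → f.coeff m = 0)
    (m : ℕ) (hm : 0 < m) (hmA : m < 2 * A) :
    PowerSeries.coeff m (dvd_ld f) = m * f.coeff m := by
  have h0' : f.coeff 0 ≠ 0 := by rw [h0]; exact one_ne_zero
  have hs := dvd_ld_mul_self h0'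
  have hx : ∀ k : ℕ, (X * derivative f : ℚ[X]).coeff k = k * f.coeff k := by
    intro k
    rcases k with _ | k
    · simp
    · rw [coeff_X_mul, coeff_derivative]
      push_cast
      ring
  have hsum : ∀ k : ℕ, ∑ q ∈ Finset.HasAntidiagonal.antidiagonal k, PowerSeries.coeff q.1 (dvd_ld f) * f.coeff q.2 =
      k * f.coeff k := by
    intro k
    have e := congrArg (PowerSeries.coeff k) hs
    rw [PowerSeries.coeff_mul, coeff_coe, hx k] at e
    rw [← e]
    exact Finset.sum_congr rfl (fun q _ => by rw [coeff_coe])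
  have hz : PowerSeries.coeff 0 (dvd_ld f) = 0 := by
    have e := hsum 0
    simpa [h0] using e
  induction m using Nat.strong_induction_on with
  | _ m ih =>
    have e := hsum m
    rw [Finset.sum_eq_single (m, 0)] at e
    · rw [h0, mul_one] at e
      exact e
    · rintro ⟨i, j⟩ hq hne
      rw [Finset.HasAntidiagonal.mem_antidiagonal] at hq
      simp only at hq ⊢
      have hj : j ≠ 0 := by
        rintro rfl
        exact hne (by rw [← hq, add_zero])
      rcases Nat.eq_zero_or_pos i with hi | hi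
      · rw [hi, hz, zero_mul]
      · rcases Nat.lt_or_ge j A with hjA | hjA
        · rw [h1 j (Nat.pos_of_ne_zero hj) hjA, mul_zero]
        · rw [ih i (by omega) hi (by omega), h1 i hi (by omega), mul_zero, zero_mul]
    · intro h
      exact absurd (Finset.HasAntidiagonal.mem_antidiagonal.2 (add_zero m)) h

/-- If `P (1 - X^a)` has no terms of degree `1, ..., A - 1` and none of degree `w < 2 A`, `w ≠ a`, and
`Φ_w` divides `P`, then some `Φ_N`, `N` a proper multiple of `w`, divides `P`. -/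
theorem exists_mult (M : Multiset ℕ) (hM : ∀ N ∈ M, 0 < N) (P : ℤ[X])
    (hP : P = (M.map (fun N => cyclotomic N ℤ)).prod ∨ P = -(M.map (fun N => cyclotomic N ℤ)).prod)
    (w a A : ℕ) (hw : 2 ≤ w) (hwM : w ∈ M) (ha : 1 ≤ a) (haw : a ≠ w) (hA : 1 ≤ A) (hwA : w < 2 * A)
    (h0 : P.coeff 0 = 1) (h1 : ∀ m, 0 < m → m < A → (P * (1 - X ^ a)).coeff m = 0)
    (h2 : (P * (1 - X ^ a)).coeff w = 0) : ∃ N ∈ M, w ∣ N ∧ N ≠ w := by
  by_contra hcon
  have hw' : ∀ N ∈ M, w ∣ N → N = w := by
    intro N hN hd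
    by_contra hne
    exact hcon ⟨N, hN, hd, hne⟩
  obtain ⟨c, hcw, hc⟩ := mult_coeff M hM w hw'
  set Q : ℚ[X] := (M.map (fun N => cyclotomic N ℚ)).prod with hQ
  have hQ0 : Q.coeff 0 ≠ 0 :=
    dvd_coeff_zero_multiset_prod M _ (fun i _ => dvd_cyclotomic_coeff_zero_ne i)
  have hmap : ((M.map (fun N => cyclotomic N ℤ)).prod).map (Int.castRingHom ℚ) = Q := by
    rw [hQ, Polynomial.map_multiset_prod, Multiset.map_map]
    congr 1
    apply Multiset.map_congr rfl
    intro N _
    simp
  have hPQ : dvd_ld (P.map (Int.castRingHom ℚ)) = dvd_ld Q := by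
    rcases hP with h | h
    · rw [h, hmap]
    · rw [h, Polynomial.map_neg, hmap, dvd_ld_neg hQ0]
  have hP0 : (P.map (Int.castRingHom ℚ)).coeff 0 ≠ 0 := by
    rw [coeff_map, h0]
    simp
  have hX0 : ((X : ℚ[X]) ^ a - 1).coeff 0 ≠ 0 := by
    rw [coeff_sub, coeff_X_pow, coeff_one_zero, if_neg (by omega)]
    norm_num
  have hX1 : (1 - (X : ℚ[X]) ^ a) = -((X : ℚ[X]) ^ a - 1) := by ring
  have hX2 : (1 - (X : ℚ[X]) ^ a).coeff 0 ≠ 0 := by
    rw [coeff_sub, coeff_X_pow, coeff_one_zero, if_neg (by omega)]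
    norm_num
  set f : ℚ[X] := P.map (Int.castRingHom ℚ) * (1 - X ^ a) with hf
  have hfP : f = (P * (1 - X ^ a)).map (Int.castRingHom ℚ) := by
    rw [hf, Polynomial.map_mul]
    simp
  have hfc : ∀ m, f.coeff m = (((P * (1 - X ^ a)).coeff m : ℤ) : ℚ) := by
    intro m
    rw [hfP, coeff_map]
    rfl
  have hf0 : f.coeff 0 = 1 := by
    rw [hf, mul_coeff_zero, coeff_map, h0, coeff_sub, coeff_one_zero, coeff_X_pow,
      if_neg (by omega)]
    simp
  have hf1 : ∀ m, 0 < m → m < A → f.coeff m = 0 := by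
    intro m hm hmA
    rw [hfc, h1 m hm hmA]
    simp
  have hld : dvd_ld f = dvd_ld Q + dvd_ld ((X : ℚ[X]) ^ a - 1) := by
    rw [hf, dvd_ld_mul hP0 hX2, hPQ, hX1, dvd_ld_neg hX0]
  have hkey : ∀ m : ℕ, 0 < m → m < 2 * A →
      ∑ d ∈ m.divisors, (c d + if d = a then -(a : ℚ) else 0) = m * f.coeff m := by
    intro m hm hmA
    rw [← low_coeff f A hf0 hf1 m hm hmA, hld, map_add, hc m hm.ne', dvd_ld_X_pow_sub_one ha,
      PowerSeries.coeff_mk, Finset.sum_add_distrib]
    congr 1
    rw [Finset.sum_ite_eq' m.divisors a (fun _ => -(a : ℚ))]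
    have h3 : (m ≠ 0 ∧ a ∣ m) ↔ a ∈ m.divisors := by
      rw [Nat.mem_divisors]; exact and_comm
    by_cases h4 : a ∈ m.divisors
    · rw [if_pos h4, if_pos (h3.mpr h4)]
    · rw [if_neg h4, if_neg (fun h => h4 (h3.mp h))]
  have hsmall : ∀ m : ℕ, 0 < m → m < A → (c m + if m = a then -(a : ℚ) else 0) = 0 := by
    intro m
    induction m using Nat.strong_induction_on with
    | _ m ih =>
      intro hm hmA
      have e1 := hkey m hm (by omega)
      rw [hf1 m hm hmA, mul_zero, ← Nat.cons_self_properDivisors hm.ne', Finset.sum_cons,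
        Finset.sum_eq_zero, add_zero] at e1
      · exact e1
      · intro d hd
        rw [Nat.mem_properDivisors] at hd
        exact ih d hd.2 (Nat.pos_of_dvd_of_pos hd.1 hm) (by omega)
  have hw0 : 0 < w := by omega
  have e2 := hkey w hw0 hwA
  rw [hfc, h2, Int.cast_zero, mul_zero, ← Nat.cons_self_properDivisors hw0.ne', Finset.sum_cons,
    Finset.sum_eq_zero, add_zero, if_neg (fun h => haw h.symm), add_zero, hcw] at e2
  · have hcount : 0 < M.count w := Multiset.count_pos.2 hwM
    have h5 : (w : ℚ) * (M.count w : ℚ) ≠ 0 :=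
      mul_ne_zero (by exact_mod_cast hw0.ne') (by exact_mod_cast hcount.ne')
    exact h5 (neg_eq_zero.1 e2)
  · intro d hd
    rw [Nat.mem_properDivisors] at hd
    have hd0 : 0 < d := Nat.pos_of_dvd_of_pos hd.1 hw0
    have hd2 : 2 * d ≤ w := by
      obtain ⟨k, hk⟩ := hd.1
      have : 2 ≤ k := by
        rcases k with _ | _ | k
        · omega
        · omega
        · omega
      calc 2 * d = d * 2 := by ring
        _ ≤ d * k := Nat.mul_le_mul_left d this
        _ = w := hk.symm
    exact hsmall d hd0 (by omega)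

end Pool.Agent.Helper27.OC
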