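import Mathlib
import Pool.Agent.Helper62.OB.Count
import Pool.Agent.Helper62.OB.Root
import Pool.Agent.Helper27.OC.Seq

/-!
# OC-3b: the polynomial

* `coeff_sum`: `coeff_X_pow`, `Finset.sum_ite`..., at most one `k` because `se` is strictly increasing (`se_strictMono`).
* `w_mem`: let `ζ` be a primitive `w`-th root of unity in `ℂ`; `ζ^t * ∑ ζ^(se k) = ∑ ζ^(t + se k) = ∑_k ζ^(xs k)` (`add_se`) `= ∑_{i < w} ζ^i = 0`
  (`xs` is a bijection of `range w`, `xs_surj`, `h.1`; `IsPrimitiveRoot.geom_sum_eq_zero`).  So the product of the `Φ_N (ζ)`, `N ∈ M`, is `0`,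
  some `Φ_N (ζ) = 0`, `ζ` is a primitive `N`-th root of unity (`isRoot_cyclotomic_iff`), `N = w`.  See `root_cos` in OB/Root.lean for evaluation.
-/

set_option autoImplicit false

namespace Pool.Agent.Helper27.OC

open Finset Polynomial Pool.Agent.Helper62.OB

theorem coeff_sum {w b t : ℕ} (ht : 1 ≤ t) (m : ℕ) :
    (∑ k ∈ range w, (X : ℤ[X]) ^ se w b t k).coeff m =
      if ∃ k < w, se w b t k = m then 1 else 0 := by
  have h0 : (∑ k ∈ range w, (X : ℤ[X]) ^ se w b t k).coeff m =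
      ∑ k ∈ range w, if se w b t k = m then (1 : ℤ) else 0 := by
    rw [finsetSum_coeff]
    refine sum_congr rfl fun k _ => ?_
    rw [coeff_X_pow]
    by_cases h : se w b t k = m
    · rw [if_pos h, if_pos h.symm]
    · rw [if_neg h, if_neg (fun h' => h h'.symm)]
  rw [h0]
  by_cases h : ∃ k < w, se w b t k = m
  · rw [if_pos h]
    obtain ⟨k, hk, hkm⟩ := h
    rw [sum_eq_single_of_mem k (mem_range.2 hk), if_pos hkm]
    intro j _ hjk
    rw [if_neg]
    intro h1
    exact hjk ((se_strictMono ht).injective (h1.trans hkm.symm))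
  · rw [if_neg h]
    refine sum_eq_zero fun k hk => ?_
    rw [if_neg]
    intro h1
    exact h ⟨k, mem_range.1 hk, h1⟩

/-- coefficients of `P (1 - X^a)` -/
theorem coeff_mul_one_sub (P : ℤ[X]) (a m : ℕ) :
    (P * (1 - X ^ a)).coeff m = P.coeff m - if a ≤ m then P.coeff (m - a) else 0 := by
  rw [mul_sub, mul_one, coeff_sub, coeff_mul_X_pow']

/-- `Φ_w` is one of the factors: all residues modulo `w` occur among the exponents. -/
theorem w_mem {w b t : ℕ} (hb : b < w) (hw2 : 2 ≤ w) (h : Orb w b t) (M : Multiset ℕ)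
    (hM : ∀ N ∈ M, 0 < N)
    (hP : ∑ k ∈ range w, (X : ℤ[X]) ^ se w b t k = (M.map (fun N => cyclotomic N ℤ)).prod ∨
      ∑ k ∈ range w, (X : ℤ[X]) ^ se w b t k = -(M.map (fun N => cyclotomic N ℤ)).prod) :
    w ∈ M := by
  have hw0 : 0 < w := by omega
  obtain ⟨z, hz⟩ : ∃ z : ℂ, IsPrimitiveRoot z w := ⟨_, Complex.isPrimitiveRoot_exp w hw0.ne'⟩
  have h1 : ∑ i ∈ range w, z ^ i = 0 := hz.geom_sum_eq_zero (by omega)
  have h2 : ∑ k ∈ range w, z ^ xs w b t k = 0 := by
    rw [← h1]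
    refine sum_bij (fun k _ => xs w b t k) (fun k _ => mem_range.2 (xs_lt w b t k hw0))
      (fun i hi j hj hij => h.1 i (mem_range.1 hi) j (mem_range.1 hj) hij)
      (fun r hr => ?_) (fun _ _ => rfl)
    obtain ⟨k, hk, hkr⟩ := xs_surj hw0 h r (mem_range.1 hr)
    exact ⟨k, mem_range.2 hk, hkr⟩
  have h3 : z ^ t * ∑ k ∈ range w, z ^ se w b t k = 0 := by
    rw [mul_sum, ← h2]
    refine sum_congr rfl fun k hk => ?_
    rw [← pow_add, add_se hb h (mem_range.1 hk), pow_add, pow_mul z w, hz.pow_eq_one, one_pow,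
      mul_one]
  have hz0 : z ≠ 0 := hz.ne_zero hw0.ne'
  have h4 : ∑ k ∈ range w, z ^ se w b t k = 0 := by
    rcases mul_eq_zero.1 h3 with h5 | h5
    · exact absurd h5 (pow_ne_zero _ hz0)
    · exact h5
  have h5 : aeval z (M.map (fun N => cyclotomic N ℤ)).prod = 0 := by
    have h6 : aeval z (∑ k ∈ range w, (X : ℤ[X]) ^ se w b t k) = 0 := by
      rw [map_sum, ← h4]
      refine sum_congr rfl fun k _ => ?_
      rw [map_pow, aeval_X]
    rcases hP with h7 | h7
    · rw [← h7]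
      exact h6
    · rw [h7, map_neg, neg_eq_zero] at h6
      exact h6
  rw [map_multiset_prod, Multiset.map_map, Multiset.prod_eq_zero_iff, Multiset.mem_map] at h5
  obtain ⟨N, hN, hN0⟩ := h5
  have hN1 : (cyclotomic N ℂ).IsRoot z := by
    rw [IsRoot.def, ← map_cyclotomic_int, eval_map]
    exact hN0
  have hN2 := (isRoot_cyclotomic_iff_charZero (hM N hN)).1 hN1
  rw [hz.unique hN2]
  exact hN

end Pool.Agent.Helper27.OC
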