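import Mathlib
import Pool.Agent.Helper27.OC.Seq
import Pool.Agent.Helper27.OC.Seq2
import Pool.Agent.Helper27.OC.Ex

/-!
(this file: `runB_mod`, `runB_se`)
# OC-9: existence for `t < b`

Let `p = t + 1`, `k = (b + 1) / p`, `q₀ = (b + 1) % p`, so `b + 1 = k p + q₀`, `k ≥ 1`.
* `runB_se`: for `i < k` (and `i < w`) the place is `t + i p ≤ k p - 1 ≤ b`; if it is `< b` then `ep i = 1`.  It is `b` only if `i = k - 1` and `q₀ = 0`; then
  `i = w - 1` by `xs_ne`/injectivity, `w = k`, but `b + 1 = k p > k = w`: contradiction.  So `q₀ ≥ 1` and `se i = i p` for `i ≤ k` (note `k < w`).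
* `runB_next`: `se (k + 1) ≥ se k + t = k p + t`.
* For `0 < m < A := (k + 1) p - 1 = k p + t`: (`∃ j < w, se j = m`) iff `p ∣ m`.
* `exB`: `exists_mult` with `a = p`, `A`: `w < 2 A` by `hw`.  The coefficients of degree `m`, `0 < m < A`, of `P (1 - X^p)` vanish.  The coefficient of degree
  `w` is `0 - coeff_{w - p} P` (`se_ne_w`).  If it is not `0`: `se j = w - p` for some `j < w`; the place is `(t + w - p) % w = w - 1 > b`, so `j < w - 1` (`h.2`), `ep j = 0` and
  `se (j + 1) = w - p + t = w - 1`.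
-/

set_option autoImplicit false

namespace Pool.Agent.Helper27.OC

open Finset Polynomial Pool.Agent.Helper62.OB

theorem runB1_xs {w b t : ℕ} (htb : t < b) (hb : b < w - 1) (i : ℕ)
    (hi : i < (b + 1) / (t + 1)) : xs w b t i = t + i * (t + 1) := by
  have hk : (b + 1) / (t + 1) * (t + 1) ≤ b + 1 := Nat.div_mul_le_self _ _
  induction i with
  | zero =>
    rw [zero_mul, add_zero]
    exact Nat.mod_eq_of_lt (by omega)
  | succ i ih =>
    have h1 := ih (by omega)
    have h2 : (i + 2) * (t + 1) ≤ (b + 1) / (t + 1) * (t + 1) :=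
      Nat.mul_le_mul_right _ (by omega)
    have h3 : (i + 2) * (t + 1) = i * (t + 1) + (t + 1) + (t + 1) := by ring
    have h4 : (i + 1) * (t + 1) = i * (t + 1) + (t + 1) := by ring
    have h5 : xs w b t i < b := by omega
    rw [xs_succ]
    unfold cb
    rw [if_pos h5, h1, Nat.mod_eq_of_lt (by omega)]
    omega

theorem runB_mod {w b t : ℕ} (ht : 1 ≤ t) (htb : t < b) (hb : b < w - 1) (h : Orb w b t) :
    1 ≤ (b + 1) % (t + 1) := by
  by_contra hc
  have hm : (b + 1) % (t + 1) = 0 := by omega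
  have h1 := Nat.mod_add_div (b + 1) (t + 1)
  rw [hm, zero_add, mul_comm] at h1
  have hk1 : 1 ≤ (b + 1) / (t + 1) := by
    rw [Nat.one_le_div_iff (by omega)]
    omega
  obtain ⟨k, hk⟩ : ∃ k, (b + 1) / (t + 1) = k + 1 := ⟨(b + 1) / (t + 1) - 1, by omega⟩
  have h2 := runB1_xs htb hb k (by omega)
  rw [hk] at h1
  have h3 : (k + 1) * (t + 1) = k * (t + 1) + (t + 1) := by ring
  have h4 : xs w b t k = b := by omega
  have h5 : k ≤ k * (t + 1) := Nat.le_mul_of_pos_right _ (by omega)
  have h6 := h.1 k (by omega) (w - 1) (by omega) (h4.trans h.2.symm)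
  omega

theorem runB_se {w b t : ℕ} (ht : 1 ≤ t) (htb : t < b) (hb : b < w - 1) (h : Orb w b t) (i : ℕ)
    (hi : i ≤ (b + 1) / (t + 1)) : se w b t i = i * (t + 1) := by
  have hm := runB_mod ht htb hb h
  have h1 := Nat.mod_add_div (b + 1) (t + 1)
  rw [mul_comm] at h1
  induction i with
  | zero => simp [se]
  | succ i ih =>
    have h2 := ih (by omega)
    have h3 := runB1_xs htb hb i (by omega)
    have h4 : (i + 1) * (t + 1) ≤ (b + 1) / (t + 1) * (t + 1) := Nat.mul_le_mul_right _ hi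
    have h5 : (i + 1) * (t + 1) = i * (t + 1) + (t + 1) := by ring
    have h6 : ep w b t i = 1 := by
      unfold ep
      rw [if_pos (by omega)]
    rw [se_succ, h2, h6]
    omega

end Pool.Agent.Helper27.OC
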