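import Mathlib
import Pool.Agent.Helper27.OC.RunB1

/-!
(this file: `exc_par`)
# OC-10: the exceptional case, the orbit passes through `w - 1` in the first turn

Let `p = t + 1`, `k = (b + 1) / p`, `b + 1 = k p + q₀`, `1 ≤ q₀ ≤ t` (`runB_mod`), `A = k p + t`, `D = w - 1`, `se n = D`.
First turn: `se i = i p` for `i ≤ k` (`runB_se`); the place at step `k` is `A ≥ b` if `A < w`, and then the steps are `t`: `se (k + i) = k p + i t` as long as
`k p + i t + t < w`, i.e. the place `A + i t < w`.  `n > k` (because `se k = k p ≤ b + 1 - q₀ < w - 1`), so `D = se n = k p + (n - k) t`; put `J = n - k ≥ 1`: `w = k p + 1 + J t`.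
(Note `A ≤ w - 1`: `A = k p + t ≤ k p + J t`.)
Repetition: for `j ≤ A - b` (`= p - q₀ ≤ t`): `se (j n + i) = j D + se i` for `i ≤ n`, as long as the places `A + i t - j` stay `≥ b`: place at step `j n + i` is
`t + i p - j` for `i < k` (`< b` because `t + i p ≤ k p - 1 < b`; `≥ 0` because `j ≤ t`), and `A + (i - k) t - j` for `k ≤ i < n`, which is `> b` for `j < A - b`, or
`j = A - b` and `i > k`.  For `j = A - b` and `i = k` the place is `b`: so `j n + k = w - 1` with `j = p - q₀`
(the index `w - 1` cannot come earlier: all earlier places are `≠ b`; careful: first show by strong induction that all indices up to `j n + k` are `< w`, i.e. if the index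
reaches `w - 1` the place is `b`).
So `(p - q₀) n + k = w - 1 = k p + J t`, `n = k + J`, hence `(q₀ - 1) n = 0`, `q₀ = 1`, `b = k p`, `A - b = t`.
`exc_se`: the formulas for all `j ≤ t`.
`exc_sum`: in any commutative ring, sum of `x^(se i)` over `i < w = t n + k + 1`, times `(1 - x^D) (1 - x^p) (1 - x^t)`: the sum is
`∑_{j ≤ t} ∑_{i < k} x^(j D + i p) + ∑_{j < t} ∑_{i < J} x^(j D + k p + i t) + x^(t D + k p)`, and `(∑_{i < n} y^i) (1 - y) = 1 - y^n` (`geom_sum_mul_neg`).
-/

set_option autoImplicit false

namespace Pool.Agent.Helper27.OC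

open Finset Pool.Agent.Helper62.OB

/-- The place at step `m`, when `t + se m` is known. -/
theorem exc_place {w b t m x c : ℕ} (hb : b < w) (h : Orb w b t) (hm : m < w) (hx : x < w)
    (he : t + se w b t m = x + w * c) : xs w b t m = x := by
  rw [← add_se_mod hb h hm, he, Nat.add_mul_mod_self_left, Nat.mod_eq_of_lt hx]

theorem exc_ep_one {w b t m : ℕ} (hx : xs w b t m < b) : ep w b t m = 1 := by
  unfold ep
  rw [if_pos hx]

theorem exc_ep_zero {w b t m : ℕ} (hx : b < xs w b t m) : ep w b t m = 0 := by
  unfold ep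
  rw [if_neg (by omega)]

/-- The first turn after step `k`. -/
theorem exc_first {w b t n k : ℕ} (ht : 1 ≤ t) (hb : b < w - 1) (h : Orb w b t)
    (hn : n < w) (hs : se w b t n = w - 1) (hk : se w b t k = k * (t + 1))
    (hbk : b < k * (t + 1) + t) (i : ℕ) (hi : k + i ≤ n) :
    se w b t (k + i) = k * (t + 1) + i * t := by
  induction i with
  | zero => simpa using hk
  | succ i ih =>
    have h1 := ih (by omega)
    have h2 : se w b t (k + i) + t ≤ w - 1 := by
      have h3 : se w b t (k + i + 1) ≤ se w b t n := (se_strictMono ht).monotone (by omega)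
      rw [se_succ, hs] at h3
      omega
    have h4 : xs w b t (k + i) = t + se w b t (k + i) :=
      exc_place (c := 0) (by omega) h (by omega) (by omega) (by ring)
    have h5 : ep w b t (k + i) = 0 := by
      apply exc_ep_zero
      rw [h4, h1]
      have : 0 ≤ i * t := Nat.zero_le _
      omega
    have h6 : k + (i + 1) = (k + i) + 1 := by ring
    rw [h6, se_succ, h1, h5]
    ring

/-- The repetition. -/
theorem exc_rep {w b t n k m₀ : ℕ} (ht : 1 ≤ t) (hb : b < w - 1) (h : Orb w b t)
    (hn : n < w) (hs : se w b t n = w - 1)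
    (hlo : ∀ i < k, t + se w b t i < b)
    (hhi : ∀ i, k ≤ i → i < n → b + m₀ ≤ t + se w b t i)
    (hm : m₀ ≤ t) (j : ℕ) (hj : j ≤ m₀) :
    ∀ i ≤ n, (j = m₀ → i ≤ k) →
      j * n + i ≤ w - 1 ∧ se w b t (j * n + i) = j * (w - 1) + se w b t i := by
  induction j with
  | zero =>
    intro i hi _
    constructor
    · omega
    · simp
  | succ j ih =>
    have h0 := ih (by omega) n le_rfl (by omega)
    intro i
    induction i with
    | zero =>
      intro _ _
      have e : (j + 1) * n + 0 = j * n + n := by ring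
      rw [e]
      refine ⟨h0.1, ?_⟩
      rw [h0.2, hs, se_zero]
      ring
    | succ i ihi =>
      intro hi hik
      obtain ⟨h1, h2⟩ := ihi (by omega) (fun e => by have := hik e; omega)
      -- the place of the step
      have h3 : se w b t i + t ≤ w - 1 := by
        have h3 : se w b t (i + 1) ≤ se w b t n := (se_strictMono ht).monotone hi
        rw [se_succ, hs] at h3
        omega
      have hw : w = (w - 1) + 1 := by omega
      have h4 : xs w b t ((j + 1) * n + i) = t + se w b t i - (j + 1) := by
        refine exc_place (c := j + 1) (by omega) h (by omega) (by omega) ?_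
        rw [h2]
        have e1 : w * (j + 1) = (j + 1) * (w - 1) + (j + 1) := by
          conv_lhs => rw [hw]
          ring
        rw [e1]
        omega
      have h4' : xs w b t i = t + se w b t i :=
        exc_place (c := 0) (by omega) h (by omega) (by omega) (by ring)
      have h5 : t + se w b t i - (j + 1) ≠ b ∧
          ep w b t ((j + 1) * n + i) = ep w b t i := by
        by_cases hc : i < k
        · have h6 := hlo i hc
          refine ⟨by omega, ?_⟩
          rw [exc_ep_one (by rw [h4]; omega), exc_ep_one (by rw [h4']; omega)]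
        · have h6 := hhi i (by omega) (by omega)
          have h7 : j + 1 ≠ m₀ := fun e => by have := hik e; omega
          refine ⟨by omega, ?_⟩
          rw [exc_ep_zero (by rw [h4]; omega), exc_ep_zero (by rw [h4']; omega)]
      have h8 : (j + 1) * n + i ≠ w - 1 := by
        intro e
        apply h5.1
        rw [← h4, e]
        exact h.2
      have e2 : (j + 1) * n + (i + 1) = ((j + 1) * n + i) + 1 := by ring
      rw [e2]
      refine ⟨by omega, ?_⟩
      rw [se_succ, se_succ, h2, h5.2]
      ring

theorem exc_par {w b t n : ℕ} (ht : 2 ≤ t) (htb : t < b) (hb : b < w - 1) (h : Orb w b t)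
    (hn : n < w) (hs : se w b t n = w - 1) :
    ∃ k J, 1 ≤ k ∧ 1 ≤ J ∧ b = k * (t + 1) ∧ w = k * (t + 1) + 1 + J * t ∧ n = k + J ∧
      ∀ j ≤ t, (∀ i < k, se w b t (j * n + i) = j * (w - 1) + i * (t + 1)) ∧
        (∀ i < J, j < t → se w b t (j * n + k + i) = j * (w - 1) + k * (t + 1) + i * t) ∧
        se w b t (j * n + k) = j * (w - 1) + k * (t + 1) := by
  have ht1 : 1 ≤ t := by omega
  obtain ⟨k, hk⟩ : ∃ k, k = (b + 1) / (t + 1) := ⟨_, rfl⟩
  obtain ⟨q, hq⟩ : ∃ q, q = (b + 1) % (t + 1) := ⟨_, rfl⟩
  have hq1 : 1 ≤ q := by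
    rw [hq]
    exact runB_mod ht1 htb hb h
  have hqt : q < t + 1 := by
    rw [hq]
    exact Nat.mod_lt _ (by omega)
  have hbq : k * (t + 1) + q = b + 1 := by
    rw [hk, hq, mul_comm]
    exact Nat.div_add_mod _ _
  have hk1 : 1 ≤ k := by
    rcases Nat.eq_zero_or_pos k with h0 | h0
    · rw [h0] at hbq
      omega
    · exact h0
  have hse : ∀ i ≤ k, se w b t i = i * (t + 1) := by
    intro i hi
    exact runB_se ht1 htb hb h i (by rw [← hk]; exact hi)
  have hkn : k < n := by
    have h1 : se w b t k < se w b t n := by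
      rw [hse k le_rfl, hs]
      omega
    exact (se_strictMono ht1).lt_iff_lt.1 h1
  have hfirst := exc_first ht1 hb h hn hs (hse k le_rfl) (by omega)
  obtain ⟨J, hJ⟩ : ∃ J, n = k + J := ⟨n - k, by omega⟩
  have hJ1 : 1 ≤ J := by omega
  have hwJ : w - 1 = k * (t + 1) + J * t := by
    rw [← hs, hJ]
    exact hfirst J (by omega)
  have hlo : ∀ i < k, t + se w b t i < b := by
    intro i hi
    rw [hse i hi.le]
    have h1 : (i + 1) * (t + 1) ≤ k * (t + 1) := Nat.mul_le_mul_right _ hi
    have h2 : (i + 1) * (t + 1) = i * (t + 1) + (t + 1) := by ring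
    omega
  have hhi : ∀ i, k ≤ i → i < n → b + (t + 1 - q) ≤ t + se w b t i := by
    intro i h1 h2
    obtain ⟨c, rfl⟩ : ∃ c, i = k + c := ⟨i - k, by omega⟩
    rw [hfirst c (by omega)]
    have : 0 ≤ c * t := Nat.zero_le _
    omega
  have hrep := exc_rep (m₀ := t + 1 - q) ht1 hb h hn hs hlo hhi (by omega)
  -- the last step
  have hlast : (t + 1 - q) * n + k = w - 1 := by
    obtain ⟨h1, h2⟩ := hrep (t + 1 - q) le_rfl k (by omega) (fun _ => le_rfl)
    have h3 : xs w b t ((t + 1 - q) * n + k) = b := by
      refine exc_place (c := t + 1 - q) (by omega) h (by omega) (by omega) ?_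
      rw [h2, hse k le_rfl]
      have hw : w = (w - 1) + 1 := by omega
      have e1 : w * (t + 1 - q) = (t + 1 - q) * (w - 1) + (t + 1 - q) := by
        conv_lhs => rw [hw]
        ring
      rw [e1]
      omega
    exact h.1 _ (by omega) _ (by omega) (h3.trans h.2.symm)
  have hq' : q = 1 := by
    obtain ⟨s, hs'⟩ : ∃ s, t + 1 - q = s := ⟨_, rfl⟩
    have hts : t + 1 = s + q := by omega
    rw [hs', hwJ, hJ] at hlast
    by_contra hne
    have hq2 : 2 ≤ q := by omega
    obtain ⟨r, rfl⟩ : ∃ r, q = r + 2 := ⟨q - 2, by omega⟩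
    have htr : t = s + r + 1 := by omega
    subst htr
    have h1 : s * (k + J) + k + ((r + 1) * k + (r + 1) * J) =
        k * (s + r + 1 + 1) + J * (s + r + 1) := by ring
    have h2 : 0 < (r + 1) * k := Nat.mul_pos (by omega) (by omega)
    omega
  subst hq'
  have hb' : b = k * (t + 1) := by omega
  refine ⟨k, J, hk1, hJ1, hb', by omega, hJ, ?_⟩
  intro j hj
  have hrj := hrep j (by omega)
  refine ⟨?_, ?_, ?_⟩
  · intro i hi
    rw [(hrj i (by omega) (fun _ => hi.le)).2, hse i hi.le]
  · intro i hi hjt
    have h1 := (hrj (k + i) (by omega) (fun e => by omega)).2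
    rw [hfirst i (by omega)] at h1
    rw [add_assoc, h1, add_assoc]
  · rw [(hrj k (by omega) (fun _ => le_rfl)).2, hse k le_rfl]

end Pool.Agent.Helper27.OC
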