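import Mathlib
import Pool.Agent.Helper27.OC.Exc1

/-!
(this file: `exc_sum`; `exc_par` is in `Exc1`, proved by somebody else)
# OC-10: the exceptional case, the orbit passes through `w - 1` in the first turn

Let `p = t + 1`, `k = (b + 1) / p`, `b + 1 = k p + q₀`, `1 ≤ q₀ ≤ t` (`runB_mod`), `A = k p + t`, `D = w - 1`, `se n = D`.
First turn: `se i = i p` for `i ≤ k` (`runB_se`); the place at step `k` is `A ≥ b` if `A < w`, and then the steps are `t`: `se (k + i) = k p + i t` as long as
`k p + i t + t < w`, i.e. the place `A + i t < w`.  `n > k` (because `se k = k p ≤ b + 1 - q₀ < w - 1`), so `D = se n = k p + (n - k) t`; put `J = n - k ≥ 1`: `w = k p + 1 + J t`.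
(Note `A ≤ w - 1`: `A = k p + t ≤ k p + J t`.)
Repetition: for `j ≤ A - b` (`= p - q₀ ≤ t`): `se (j n + i) = j D + se i` for `i ≤ n`, as long as the places `A + i t - j` stay `≥ b`: place at step `j n + i` is
`t + i p - j` for `i < k` (`< b` because `t + i p ≤ k p - 1 < b`; `≥ 0` because `j ≤ t`), and `A + (i - k) t - j` for `k ≤ i < n`, which is `> b` for `j < A - b`, or
`j = A - b` and `i > k`.  For `j = A - b` and `i = k` the place is `b`: so `j n + k = w - 1` with `j = p - q₀`
(the index `w - 1` cannot come earlier: all earlier places are `≠ b`; careful: first show by strong induction that all indices up to `j n + k` are `< w`, i.e. if the index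
reaches `w - 1` the place is `b`).
So `(p - q₀) n + k = w - 1 = k p + J t`, `n = k + J`, hence `(q₀ - 1) n = 0`, `q₀ = 1`, `b = k p`, `A - b = t`.
`exc_se`: the formulas for all `j ≤ t`.
`exc_sum`: in any commutative ring, sum of `x^(se i)` over `i < w = t n + k + 1`, times `(1 - x^D) (1 - x^p) (1 - x^t)`: the sum is
`∑_{j ≤ t} ∑_{i < k} x^(j D + i p) + ∑_{j < t} ∑_{i < J} x^(j D + k p + i t) + x^(t D + k p)`, and `(∑_{i < n} y^i) (1 - y) = 1 - y^n` (`geom_sum_mul_neg`).
-/

set_option autoImplicit false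

namespace Pool.Agent.Helper27.OC

open Finset Pool.Agent.Helper62.OB

theorem exc_block {R : Type*} [AddCommMonoid R] (f : ℕ → R) (t n : ℕ) :
    (∑ i ∈ range (t * n), f i) = ∑ j ∈ range t, ∑ i ∈ range n, f (j * n + i) := by
  induction t with
  | zero => simp
  | succ t ih => rw [Nat.succ_mul, Finset.sum_range_add, ih, Finset.sum_range_succ]

theorem exc_sum {w b t n k J : ℕ} (hw : w = k * (t + 1) + 1 + J * t) (hn : n = k + J)
    (hse : ∀ j ≤ t, (∀ i < k, se w b t (j * n + i) = j * (w - 1) + i * (t + 1)) ∧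
        (∀ i < J, j < t → se w b t (j * n + k + i) = j * (w - 1) + k * (t + 1) + i * t) ∧
        se w b t (j * n + k) = j * (w - 1) + k * (t + 1)) {R : Type*} [CommRing R] (x : R) :
    (∑ i ∈ range w, x ^ se w b t i) * ((1 - x ^ (w - 1)) * (1 - x ^ (t + 1)) * (1 - x ^ t)) =
      (1 - x ^ ((t + 1) * (w - 1))) * (1 - x ^ (k * (t + 1))) * (1 - x ^ t) +
      x ^ (k * (t + 1)) * (1 - x ^ (t * (w - 1))) * (1 - x ^ (J * t)) * (1 - x ^ (t + 1)) +
      x ^ (t * (w - 1) + k * (t + 1)) * (1 - x ^ (w - 1)) * (1 - x ^ (t + 1)) * (1 - x ^ t) := by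
  set D := w - 1 with hD
  set p := t + 1 with hp
  have hw2 : w = t * n + (k + 1) := by
    rw [hw, hn]; ring
  have hS : (∑ i ∈ range w, x ^ se w b t i) =
      (∑ j ∈ range p, (x ^ D) ^ j) * (∑ i ∈ range k, (x ^ p) ^ i) +
      x ^ (k * p) * (∑ j ∈ range t, (x ^ D) ^ j) * (∑ i ∈ range J, (x ^ t) ^ i) +
      x ^ (t * D + k * p) := by
    have hW : (∑ i ∈ range w, x ^ se w b t i) =
        ∑ i ∈ range (t * n + (k + 1)), x ^ se w b t i := congrArg (fun m => ∑ i ∈ range m,
          x ^ se w b t i) hw2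
    rw [hW, Finset.sum_range_add, exc_block]
    have h1 : ∀ j ∈ range t, (∑ i ∈ range n, x ^ se w b t (j * n + i)) =
        (x ^ D) ^ j * (∑ i ∈ range k, (x ^ p) ^ i) +
        x ^ (k * p) * ((x ^ D) ^ j * (∑ i ∈ range J, (x ^ t) ^ i)) := by
      intro j hj
      have hj' : j < t := Finset.mem_range.1 hj
      obtain ⟨ha, hb, -⟩ := hse j hj'.le
      rw [hn, Finset.sum_range_add, Finset.mul_sum, Finset.mul_sum, Finset.mul_sum]
      congr 1
      · apply Finset.sum_congr rfl
        intro i hi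
        have := ha i (Finset.mem_range.1 hi)
        rw [hn] at this
        rw [this, pow_add, pow_mul', pow_mul']
      · apply Finset.sum_congr rfl
        intro i hi
        have := hb i (Finset.mem_range.1 hi) hj'
        rw [hn] at this
        rw [← add_assoc, this, pow_add, pow_add, pow_mul' x j, pow_mul' x i]
        ring
    rw [Finset.sum_congr rfl h1, Finset.sum_add_distrib, ← Finset.sum_mul, ← Finset.mul_sum,
      ← Finset.sum_mul, Finset.sum_range_succ]
    obtain ⟨ha, -, hc⟩ := hse t le_rfl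
    rw [hc]
    have h2 : (∑ i ∈ range k, x ^ se w b t (t * n + i)) =
        (x ^ D) ^ t * (∑ i ∈ range k, (x ^ p) ^ i) := by
      rw [Finset.mul_sum]
      apply Finset.sum_congr rfl
      intro i hi
      rw [ha i (Finset.mem_range.1 hi), pow_add, pow_mul' x t, pow_mul' x i]
    rw [h2, hp, Finset.sum_range_succ (fun j => (x ^ D) ^ j) t]
    ring
  have g1 : (∑ j ∈ range p, (x ^ D) ^ j) * (1 - x ^ D) = 1 - x ^ (p * D) := by
    rw [geom_sum_mul_neg, pow_mul']
  have g2 : (∑ i ∈ range k, (x ^ p) ^ i) * (1 - x ^ p) = 1 - x ^ (k * p) := by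
    rw [geom_sum_mul_neg, pow_mul' x k]
  have g3 : (∑ j ∈ range t, (x ^ D) ^ j) * (1 - x ^ D) = 1 - x ^ (t * D) := by
    rw [geom_sum_mul_neg, pow_mul' x t]
  have g4 : (∑ i ∈ range J, (x ^ t) ^ i) * (1 - x ^ t) = 1 - x ^ (J * t) := by
    rw [geom_sum_mul_neg, pow_mul' x J]
  rw [hS, ← g1, ← g2, ← g3, ← g4]
  ring

end Pool.Agent.Helper27.OC
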