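import Mathlib
import Pool.Agent.Helper62.OB.Trig

/-!
# OC-2: the trigonometric lemma

`sn N n = sin (π n / N)`, `cn N n = cos (π n / N)`; library `Pool/Agent/Helper62/OB/Trig.lean`, model: the proof of `x1` in
`Pool/Agent/Helper62/OB/TrigX.lean`.
Proof of `w1`.
(1) `2 ≤ N` or `N = 1`: if `N = 1` everything is trivial.  `sn N 1 > 0` for `N ≥ 2`.
(2) `|2 e + 1 - B| ≤ B - 1 < w / 2` for `e < B`, so `|cn N (2 e + 1 - B + w (2 κ e - A))| ≤ cn N (2 e + 1 - B)` by `cn_le` (`T = w`, `L = w (2 κ e - A)`,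
    check the form of `cn_le`); with `sum_cn`: `|sn N (w A + B)| ≤ sn N B`.
(3) `N ∣ w A`: otherwise let `r` be the residue of `w A + B` given by `red`; `w ∣ r - B`, `r ≠ B`, so `|r - B| ≥ w`, `|r| ≥ w - B > B`, and `sn_strict`
    contradicts (2).  This is the argument for `hB` in `x1`.
(4) `w A = N l`: `sn N (N l + B) = (-1)^l sn N B`, `cn N (2 e + 1 - B + w (2 κ e - A)) = (-1)^l cn N (2 e + 1 - B + 2 w κ e)` (`sn_add_mul`, `cn_add_mul`;
    the sign of `l` does not matter, `(-1)^l` and `(-1)^(-l)` are equal); so `∑_e (cn N (2 e + 1 - B) - cn N (2 e + 1 - B + 2 w κ e)) = 0` with nonnegative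
    terms by `cn_le`; every term is zero.
(5) `cn N d - cn N (d + 2 L) = 2 sn N (d + L) sn N L` (`cn_sub_cn`), `d = 2 e + 1 - B`, `L = w κ e`.  `sn N n = 0` iff `N ∣ n` (prove it, `sn_pos` and
    `sn_add_mul`, or `Real.sin_eq_zero_iff`).  If `N ∣ L` done.  If `N ∣ d + L` then `w ∣ d`, `|d| < w`, so `d = 0` and `N ∣ L`.
-/

set_option autoImplicit false

namespace Pool.Agent.Helper27.OC

open Finset Pool.Agent.Helper62.OB

theorem sn_eq_zero (N : ℕ) (hN : 0 < N) (n : ℤ) (h : sn N n = 0) : (N : ℤ) ∣ n := by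
  obtain ⟨r, hr, hr2, hs, -⟩ := red N hN n
  rw [h, abs_zero] at hs
  by_cases h0 : r = 0
  · rw [h0, sub_zero] at hr
    exact hr
  · exfalso
    have h1 : 0 < |r| := abs_pos.2 h0
    have h2 := sn_pos N |r| h1 (by linarith)
    linarith

theorem w1_zpow_neg (l : ℤ) : ((-1 : ℝ) ^ (-l)) = (-1) ^ l := by
  rw [zpow_neg]
  rcases Int.even_or_odd l with h | h
  · rw [h.neg_one_zpow, inv_one]
  · rw [h.neg_one_zpow]
    norm_num

theorem w1 (N w B : ℕ) (hN : 0 < N) (hw : (w : ℤ) ∣ N) (hB : 2 * B < w) (A : ℤ) (κ : ℕ → ℤ)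
    (hid : sn N (w * A + B) =
      sn N 1 * ∑ e ∈ range B, cn N (2 * e + 1 - B + w * (2 * κ e - A))) :
    (N : ℤ) ∣ w * A ∧ ∀ e < B, (N : ℤ) ∣ w * κ e := by
  by_cases hN1 : N = 1
  · subst hN1
    exact ⟨by simp, fun e _ => by simp⟩
  have hN2 : 2 ≤ N := by omega
  have hN0 : (0 : ℤ) < N := by exact_mod_cast hN
  have hs1 : 0 < sn N 1 := sn_pos N 1 (by norm_num) (by exact_mod_cast hN2)
  have hBw : 2 * (B : ℤ) < w := by exact_mod_cast hB
  have hB0 : (0 : ℤ) ≤ B := by positivity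
  have hd : ∀ e ∈ range B, |(2 * e + 1 - B : ℤ)| ≤ B - 1 := by
    intro e he
    have h1 : (e : ℤ) + 1 ≤ B := by exact_mod_cast mem_range.1 he
    have h2 : (0 : ℤ) ≤ e := by positivity
    exact abs_le.2 ⟨by linarith, by linarith⟩
  have hsum := sum_cn N B
  have hsum' : sn N 1 * ∑ e ∈ range B, cn N (2 * e + 1 - B) = sn N B := by linarith
  have hA : (N : ℤ) ∣ w * A := by
    by_contra h
    obtain ⟨r, hr, hr2, hsr, -⟩ := red N hN (w * A + B)
    have h1 : (w : ℤ) ∣ r - B := by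
      have h2 : (w : ℤ) ∣ w * A + B - r := hw.trans hr
      have h3 : r - B = w * A - (w * A + B - r) := by ring
      rw [h3]
      exact dvd_sub (dvd_mul_right _ _) h2
    have h2 : r - B ≠ 0 := by
      intro h3
      apply h
      have h4 : (w : ℤ) * A = w * A + B - r := by linarith
      rw [h4]
      exact hr
    have h3 := le_abs_dvd w _ h1 h2
    have h4 : |r - B| ≤ |r| + |(B : ℤ)| := abs_sub _ _
    rw [abs_of_nonneg hB0] at h4
    have h5 := sn_strict N B |r| hB0 (by linarith) hr2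
    have h6 : |sn N (w * A + B)| ≤ sn N B := by
      rw [hid, abs_mul, abs_of_pos hs1, ← hsum']
      apply mul_le_mul_of_nonneg_left _ hs1.le
      refine (abs_sum_le_sum_abs _ _).trans (sum_le_sum ?_)
      intro e he
      rw [add_comm (2 * (e : ℤ) + 1 - B)]
      exact cn_le N w hN hw _ _ (dvd_mul_right _ _) (by linarith [hd e he])
    linarith
  refine ⟨hA, ?_⟩
  obtain ⟨l, hl⟩ := hA
  have hterm : ∀ e ∈ range B, cn N (2 * e + 1 - B + w * (2 * κ e - A)) =
      (-1) ^ l * cn N (2 * e + 1 - B + 2 * (w * κ e)) := by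
    intro e _
    have h1 : (2 * (e : ℤ) + 1 - B + w * (2 * κ e - A)) =
        N * (-l) + (2 * e + 1 - B + 2 * (w * κ e)) := by
      have : (w : ℤ) * (2 * κ e - A) = 2 * (w * κ e) - w * A := by ring
      rw [this, hl]
      ring
    rw [h1, cn_add_mul N hN, w1_zpow_neg]
  rw [hl, sn_add_mul N hN, sum_congr rfl hterm, ← mul_sum] at hid
  have hid2 : sn N B = sn N 1 * ∑ e ∈ range B, cn N (2 * e + 1 - B + 2 * (w * κ e)) := by
    have h1 := neg_one_sq l
    have h2 : ((-1 : ℝ) ^ l) * ((-1) ^ l * sn N B) = ((-1 : ℝ) ^ l) * (sn N 1 *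
        ((-1) ^ l * ∑ e ∈ range B, cn N (2 * e + 1 - B + 2 * (w * κ e)))) := by rw [hid]
    calc sn N B = (((-1 : ℝ) ^ l) * (-1) ^ l) * sn N B := by rw [h1, one_mul]
      _ = ((-1 : ℝ) ^ l) * ((-1) ^ l * sn N B) := by ring
      _ = ((-1 : ℝ) ^ l) * (sn N 1 *
        ((-1) ^ l * ∑ e ∈ range B, cn N (2 * e + 1 - B + 2 * (w * κ e)))) := h2
      _ = (((-1 : ℝ) ^ l) * (-1) ^ l) * (sn N 1 *
        ∑ e ∈ range B, cn N (2 * e + 1 - B + 2 * (w * κ e))) := by ring
      _ = _ := by rw [h1, one_mul]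
  have hz : ∑ e ∈ range B, (cn N (2 * e + 1 - B) - cn N (2 * e + 1 - B + 2 * (w * κ e))) = 0 := by
    rw [sum_sub_distrib, sub_eq_zero]
    apply mul_left_cancel₀ hs1.ne'
    rw [hsum', ← hid2]
  have hnn : ∀ e ∈ range B,
      0 ≤ cn N (2 * e + 1 - B) - cn N (2 * e + 1 - B + 2 * (w * κ e)) := by
    intro e he
    have h1 := cn_le N w hN hw (2 * (w * κ e)) (2 * e + 1 - B)
      (dvd_mul_of_dvd_right (dvd_mul_right _ _) _) (by linarith [hd e he])
    rw [add_comm (2 * ((w : ℤ) * κ e))] at h1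
    have h2 := le_abs_self (cn N (2 * e + 1 - B + 2 * (w * κ e)))
    linarith
  have hall := (sum_eq_zero_iff_of_nonneg hnn).1 hz
  intro e he
  have he' := mem_range.2 he
  have h1 := hall e he'
  rw [cn_sub_cn] at h1
  rcases mul_eq_zero.1 h1 with h2 | h2
  · have h3 : sn N (2 * e + 1 - B + w * κ e) = 0 := by linarith
    have h4 := sn_eq_zero N hN _ h3
    have h5 : (2 * (e : ℤ) + 1 - B) = 0 := by
      by_contra hne
      have h6 : (w : ℤ) ∣ 2 * e + 1 - B := by
        have h7 : (w : ℤ) ∣ 2 * e + 1 - B + w * κ e := hw.trans h4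
        have h8 : (2 * (e : ℤ) + 1 - B) = (2 * e + 1 - B + w * κ e) - w * κ e := by ring
        rw [h8]
        exact dvd_sub h7 (dvd_mul_right _ _)
      have h7 := le_abs_dvd w _ h6 hne
      have h8 := hd e he'
      linarith
    rw [h5, zero_add] at h4
    exact h4
  · exact sn_eq_zero N hN _ h2

end Pool.Agent.Helper27.OC
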