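import Mathlib
import Pool.Agent.Helper27.OC.W1
import Pool.Agent.Helper27.OC.Seq

/-!
# OC-3: the case of few short rests, `2 b < w`

Let `K = t`, `α = ep w b t`, `n = w - 1`; `se w b t k = t k + pS α k` (`se_eq` in OB/Root.lean), so `hroot` says `cS N t (ep w b t) w φ = 0` for all `φ`
(as in the proof of `hQ1` in OB/Root.lean).  `sum_ep`: `pS α (w - 1) = b`.
`e1` (OB/Trig.lean) with `φ = -(t (w - 1)) - b` gives
`sn N (t w + b) = sn N 1 * ∑ j < w - 1, (α j) cn N (t (2 j + 1) + 2 pS α j + 1 - t (w - 1) - b)`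
(see `x1` in OB/TrigX.lean, the equation `e` after `rw [hQ, mul_zero] at e`).
For `ep j = 1` (`xs j < b`) the argument is `2 (t + se j) + 1 - b - t w`  and `t + se j = xs j + w qq j` (`add_se`), i.e.
`(2 xs j + 1 - b) + w (2 qq j - t)`.
Choose `κ e = qq j` where `j < w - 1`, `xs j = e` (`xs_surj`; `j ≠ w - 1` because `xs (w - 1) = b ≠ e`), and reindex the sum by `e = xs j`
(`Finset.sum_nbij'` or `Finset.sum_bij`, the terms with `ep = 0` vanish): hypothesis of `w1` with `B = b`, `A = t`.  Conclusion of `w1`: `N ∣ w t` and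
`N ∣ w κ e`; `xs` is injective on `j < w` so `κ (xs j) = qq j`.
-/

set_option autoImplicit false

namespace Pool.Agent.Helper27.OC

open Finset Pool.Agent.Helper62.OB

theorem idA (w b t N : ℕ) (hb : b < w) (hw2 : 2 ≤ w) (h : Orb w b t) (hN : 0 < N) (hwN : w ∣ N)
    (h2 : 2 * b < w) (hroot : ∀ φ : ℤ, ∑ k ∈ range w, cn N (2 * se w b t k + φ) = 0) :
    (N : ℤ) ∣ w * t ∧ ∀ j < w - 1, xs w b t j < b → (N : ℤ) ∣ w * qq w b t j := by
  classical
  have hw0 : 0 < w := by omega
  have hwn : w - 1 + 1 = w := by omega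
  have hwz : ((w - 1 : ℕ) : ℤ) = w - 1 := by
    have : (w - 1 : ℕ) + 1 = w := hwn
    have h3 : ((w - 1 : ℕ) : ℤ) + 1 = w := by exact_mod_cast this
    linarith
  have hQ1 : ∀ φ : ℤ, cS N t (ep w b t) (w - 1 + 1) φ = 0 := by
    intro φ
    rw [hwn, ← hroot φ]
    unfold cS
    exact sum_congr rfl fun k _ => by rw [se_eq]
  have hsum := sum_ep hb h
  have e := e1 N t (ep w b t) (ep_le w b t) (-(t * (w - 1)) - b) (w - 1)
  rw [hQ1, mul_zero, hsum] at e
  have a1 : (t : ℤ) * (2 * ((w - 1 : ℕ) : ℤ) + 1) + 2 * b + (-(t * (w - 1)) - b) = w * t + b := by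
    rw [hwz]
    ring
  have a2 : -(t : ℤ) + (-(t * (w - 1)) - b) = -(w * t + b) := by ring
  rw [a1, a2, sn_neg] at e
  -- the function of the place
  have hinj : ∀ i < w - 1, ∀ j < w - 1, xs w b t i = xs w b t j → i = j := fun i hi j hj hij =>
    h.1 i (by omega) j (by omega) hij
  let κ : ℕ → ℤ := fun x => if hx : ∃ j, j < w - 1 ∧ xs w b t j = x then
    (qq w b t (Classical.choose hx) : ℤ) else 0
  have hκ : ∀ j < w - 1, κ (xs w b t j) = qq w b t j := by
    intro j hj
    have hx : ∃ i, i < w - 1 ∧ xs w b t i = xs w b t j := ⟨j, hj, rfl⟩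
    have h3 : κ (xs w b t j) = (qq w b t (Classical.choose hx) : ℤ) := dif_pos hx
    obtain ⟨h4, h5⟩ := Classical.choose_spec hx
    rw [h3, hinj _ h4 _ hj h5]
  have harg : ∀ j < w - 1, xs w b t j < b →
      (t : ℤ) * (2 * j + 1) + 2 * pS (ep w b t) j + 1 + (-(t * (w - 1)) - b) =
        2 * (xs w b t j : ℤ) + 1 - b + w * (2 * κ (xs w b t j) - t) := by
    intro j hj hjb
    rw [hκ j hj]
    have h3 := add_se hb h (show j < w by omega)
    have h4 : (t : ℤ) + se w b t j = xs w b t j + w * qq w b t j := by exact_mod_cast h3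
    rw [se_eq] at h4
    linear_combination 2 * h4
  have hre : ∑ j ∈ range (w - 1), (ep w b t j : ℝ) * cn N
        (t * (2 * j + 1) + 2 * pS (ep w b t) j + 1 + (-(t * (w - 1)) - b)) =
      ∑ x ∈ range b, cn N (2 * x + 1 - b + w * (2 * κ x - t)) := by
    have h3 : ∀ j ∈ range (w - 1), (ep w b t j : ℝ) * cn N
        (t * (2 * j + 1) + 2 * pS (ep w b t) j + 1 + (-(t * (w - 1)) - b)) =
        if xs w b t j < b then cn N (2 * (xs w b t j : ℤ) + 1 - b +
          w * (2 * κ (xs w b t j) - t)) else 0 := by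
      intro j hj
      have hj' := mem_range.1 hj
      by_cases h4 : xs w b t j < b
      · rw [if_pos h4, ← harg j hj' h4, ep, if_pos h4, Nat.cast_one, one_mul]
      · rw [if_neg h4, ep, if_neg h4, Nat.cast_zero, zero_mul]
    rw [sum_congr rfl h3, ← sum_filter]
    refine sum_nbij (xs w b t) ?_ ?_ ?_ ?_
    · intro j hj
      rw [mem_filter] at hj
      exact mem_range.2 hj.2
    · intro i hi j hj hij
      have hi' := mem_filter.1 (mem_coe.1 hi)
      have hj' := mem_filter.1 (mem_coe.1 hj)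
      exact hinj i (mem_range.1 hi'.1) j (mem_range.1 hj'.1) hij
    · intro x hx
      have hx' : x < b := mem_range.1 (mem_coe.1 hx)
      obtain ⟨k, hk, hkx⟩ := xs_surj hw0 h x (by omega)
      refine ⟨k, mem_coe.2 (mem_filter.2 ⟨mem_range.2 ?_, by rw [hkx]; exact hx'⟩), hkx⟩
      by_contra hcon
      have h5 : k = w - 1 := by omega
      rw [h5, h.2] at hkx
      omega
    · intro j _
      rfl
  rw [hre] at e
  have hid : sn N (w * (t : ℤ) + b) =
      sn N 1 * ∑ x ∈ range b, cn N (2 * x + 1 - b + w * (2 * κ x - t)) := by linarith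
  obtain ⟨r1, r2⟩ := w1 N w b hN (by exact_mod_cast hwN) h2 t κ hid
  refine ⟨r1, fun j hj hjb => ?_⟩
  have h3 := r2 _ hjb
  rw [hκ j hj] at h3
  exact h3

end Pool.Agent.Helper27.OC
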