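import Mathlib
import Pool.Agent.Helper27.OC.W1
import Pool.Agent.Helper27.OC.Seq

/-!
# OC-4: the case `2 (w - 1 - b) < w`

Let `K = -(t + 1)`, `α j = 1 - ep w b t j`, `n = w - 1`; `se w b t k = (t + 1) k - pS α k` (`se_eq'` in OB/Root.lean), so `hroot` says
`cS N (-(t + 1)) α w φ = 0` for all `φ` (as in the proof of `hQ2` in OB/Root.lean).  `sum_ep` and `pS_compl`: `pS α (w - 1) = w - 1 - b =: B`.
`e1` with `φ = -(K (w - 1)) - B` gives
`sn N (-(t + 1) w + B) = sn N 1 * ∑ j < w - 1, (α j) cn N (K (2 j + 1) + 2 pS α j + 1 - K (w - 1) - B)`.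
For `ep j = 0`, `j < w - 1`: `xs j > b` (`xs_ne`), and the argument is `- 2 se j - t + (t + 1) (w - 1) - B`; with `t + se j = xs j + w qq j` (`add_se`) and
`e = w - 1 - xs j < B` this is `2 e + 1 - B + w (2 κ - A)` with `A = -(t + 1)`, `κ = -(qq j + 1)`.
Choose `κ e = -(qq j + 1)` where `xs j = w - 1 - e` and reindex: hypothesis of `w1`.  Conclusion.
-/

set_option autoImplicit false

namespace Pool.Agent.Helper27.OC

open Finset Pool.Agent.Helper62.OB

theorem idB (w b t N : ℕ) (hb : b < w) (hw2 : 2 ≤ w) (h : Orb w b t) (hN : 0 < N) (hwN : w ∣ N)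
    (h2 : 2 * (w - 1 - b) < w) (hroot : ∀ φ : ℤ, ∑ k ∈ range w, cn N (2 * se w b t k + φ) = 0) :
    (N : ℤ) ∣ w * (t + 1) ∧
      ∀ j < w - 1, b < xs w b t j → (N : ℤ) ∣ w * (qq w b t j + 1) := by
  have hwn : w - 1 + 1 = w := by omega
  have hwz : ((w - 1 : ℕ) : ℤ) = w - 1 := by omega
  have hQ2 : ∀ φ : ℤ, cS N (-(t + 1)) (fun j => 1 - ep w b t j) (w - 1 + 1) φ = 0 := by
    intro φ
    rw [hwn, ← hroot (-φ)]
    unfold cS
    refine sum_congr rfl fun k _ => ?_
    rw [← cn_neg N (2 * (se w b t k : ℤ) + -φ), se_eq']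
    congr 1
    ring
  have hsum := sum_ep hb h
  have hcompl := pS_compl w b t (w - 1)
  have hpS : pS (fun j => 1 - ep w b t j) (w - 1) = w - 1 - b := by omega
  have hα : ∀ j, (fun j => 1 - ep w b t j) j ≤ 1 := fun j => Nat.sub_le _ _
  obtain ⟨B, hB⟩ : ∃ B, B = w - 1 - b := ⟨_, rfl⟩
  rw [← hB] at hpS h2
  have hBz : (B : ℤ) = w - 1 - b := by omega
  -- the places `w - 1 - e`
  have hJ : ∀ e : ℕ, ∃ k : ℕ, e < B → k < w - 1 ∧ xs w b t k = w - 1 - e := by
    intro e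
    by_cases he : e < B
    · obtain ⟨k, hk, hk'⟩ := xs_surj (show 0 < w by omega) h (w - 1 - e) (by omega)
      refine ⟨k, fun _ => ⟨?_, hk'⟩⟩
      by_contra h3
      have h4 : k = w - 1 := by omega
      rw [h4, h.2] at hk'
      omega
    · exact ⟨0, fun h3 => absurd h3 he⟩
  choose J hJ using hJ
  have hinj : ∀ i < w - 1, ∀ j < w - 1, xs w b t i = xs w b t j → i = j := fun i hi j hj hij =>
    h.1 i (by omega) j (by omega) hij
  have himg : (range B).image J = (range (w - 1)).filter fun j => b < xs w b t j := by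
    ext j
    rw [mem_image, mem_filter, mem_range]
    constructor
    · rintro ⟨e, he, rfl⟩
      obtain ⟨h3, h4⟩ := hJ e (mem_range.1 he)
      have h5 := mem_range.1 he
      exact ⟨h3, by omega⟩
    · rintro ⟨h3, h4⟩
      have h5 := xs_lt w b t j (by omega)
      have h6 : w - 1 - xs w b t j < B := by omega
      refine ⟨w - 1 - xs w b t j, mem_range.2 h6, ?_⟩
      obtain ⟨h7, h8⟩ := hJ _ h6
      exact hinj _ h7 _ h3 (by omega)
  have hJinj : Set.InjOn J (range B : Set ℕ) := by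
    intro i hi j hj hij
    have hi' : i < B := by simpa using hi
    have hj' : j < B := by simpa using hj
    obtain ⟨-, h3⟩ := hJ i hi'
    obtain ⟨-, h4⟩ := hJ j hj'
    rw [hij, h4] at h3
    omega
  have hre : ∀ F : ℕ → ℝ, ∑ j ∈ range (w - 1), ((1 - ep w b t j : ℕ) : ℝ) * F j =
      ∑ e ∈ range B, F (J e) := by
    intro F
    rw [← sum_image (f := F) hJinj, himg, sum_filter]
    refine sum_congr rfl fun j hj => ?_
    have h3 := xs_ne h (mem_range.1 hj)
    by_cases h4 : b < xs w b t j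
    · rw [if_pos h4]
      have h5 : ep w b t j = 0 := by
        unfold ep
        rw [if_neg (by omega)]
      rw [h5]
      simp
    · rw [if_neg h4]
      have h5 : ep w b t j = 1 := by
        unfold ep
        rw [if_pos (by omega)]
      rw [h5]
      simp
  have e := e1 N (-(t + 1)) (fun j => 1 - ep w b t j) hα (-(-(t + 1) * ((w - 1 : ℕ) : ℤ)) - B)
    (w - 1)
  rw [hQ2, mul_zero, hpS] at e
  have a1 : (-(t + 1) * (2 * ((w - 1 : ℕ) : ℤ) + 1) + 2 * (B : ℤ) +
      (-(-(t + 1) * ((w - 1 : ℕ) : ℤ)) - B) : ℤ) = w * (-(t + 1)) + B := by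
    rw [hwz]
    ring
  have a2 : (-(-(t + 1)) + (-(-(t + 1) * ((w - 1 : ℕ) : ℤ)) - B) : ℤ) =
      -(w * (-(t + 1)) + B) := by
    rw [hwz]
    ring
  rw [a1, a2, sn_neg] at e
  have hs := hre fun j => cn N (-(t + 1) * (2 * (j : ℤ) + 1) +
    2 * (pS (fun j => 1 - ep w b t j) j : ℤ) + 1 + (-(-(t + 1) * ((w - 1 : ℕ) : ℤ)) - B))
  have hs2 : ∑ e ∈ range B, cn N (-(t + 1) * (2 * (J e : ℤ) + 1) +
      2 * (pS (fun j => 1 - ep w b t j) (J e) : ℤ) + 1 +
        (-(-(t + 1) * ((w - 1 : ℕ) : ℤ)) - B)) =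
      ∑ e ∈ range B, cn N (2 * e + 1 - B + w * (2 * (-((qq w b t (J e) : ℤ) + 1)) -
        (-((t : ℤ) + 1)))) := by
    refine sum_congr rfl fun e he => ?_
    obtain ⟨h3, h4⟩ := hJ e (mem_range.1 he)
    have h5 : e < B := mem_range.1 he
    have h6 := add_se hb h (show J e < w by omega)
    rw [h4] at h6
    have h7 := se_eq' w b t (J e)
    have h8 : ((w - 1 - e : ℕ) : ℤ) = w - 1 - e := by omega
    have h9 : (t : ℤ) + se w b t (J e) = (w - 1 - e) + w * qq w b t (J e) := by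
      rw [← h8]
      exact_mod_cast h6
    congr 1
    rw [hwz]
    linear_combination (-2) * h9 + 2 * h7
  rw [hs2] at hs
  have hid : sn N (w * (-((t : ℤ) + 1)) + B) = sn N 1 * ∑ e ∈ range B,
      cn N (2 * e + 1 - B + w * (2 * (-((qq w b t (J e) : ℤ) + 1)) - (-((t : ℤ) + 1)))) := by
    rw [← hs]
    linarith
  obtain ⟨g1, g2⟩ := w1 N w B hN (by exact_mod_cast hwN) h2 (-((t : ℤ) + 1))
    (fun e => -((qq w b t (J e) : ℤ) + 1)) hid
  constructor
  · rw [mul_neg, dvd_neg] at g1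
    exact g1
  · intro j hj hj2
    have h5 := xs_lt w b t j (by omega)
    have h6 : w - 1 - xs w b t j < B := by omega
    obtain ⟨h7, h8⟩ := hJ _ h6
    have h9 : J (w - 1 - xs w b t j) = j := hinj _ h7 _ hj (by omega)
    have g3 := g2 _ h6
    rw [h9, mul_neg, dvd_neg] at g3
    exact g3

end Pool.Agent.Helper27.OC
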