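import Mathlib
import Pool.Agent.Helper27.TT.F
import Pool.Agent.Helper62.OB.Defs

/-!
# OC-11: the knots `T(p, k p + 1; p - 1, J)`, `J ≥ 2`, `p = t + 1 ≥ 4`, in the exceptional case

`no_cyc` (TT/F.lean) with `m := t`, `t := J - 1`, `k := k`, `A := w - 1 = k (t + 1) + t J`, `M := M`; `EE` and `cyP` are defined in TT/Defs.lean.
For real `φ` put `x = exp (2 φ I)`, `y = exp (φ I)`; `S = ∑ x^(se i)` is `± cyP M φ` (evaluate `hP` at `x`, see `root_cos` in OB/Root.lean or `poly_of_cyc` in TT).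
`1 - x^n = (-2 I) sin (n φ) y^n`.  With `D = w - 1`, `p = t + 1`, `s = (J - 1) t`:
`(1 - x^(J t)) (1 - x^(p D)) (1 - x^(D + 1)) - (1 - x^s) (1 - x^(p (D + 1))) (1 - x^D) = x^s * (right hand side of hsum)`: put `U = x^(k p)`, `T = x^t`, `Q = x^s`, `W = x^(t D)`;
`x^(J t) = Q T`, `x^D = U Q T`, `x^(D + 1) = U Q T x`, `x^(p D) = W U Q T`, `x^(p (D + 1)) = W U Q T T x`, `x^p = T x`; then `ring` (checked).
The left hand side is `(-2 I)^3 y^(J t + p D + D + 1) EE t (J - 1) D φ` (the two exponents `J t + p D + D + 1` and `s + p (D + 1) + D` are equal).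
So `x^s * S * (1 - x^D) (1 - x^p) (1 - x^t) = (-2 I)^3 y^(...) EE`.
(1) If `cyP M φ = 0` then `S = 0`, `EE = 0`.
(2) If `0 < φ ≤ π / (m (A + 2))` and `EE = 0`: `sin (D φ)`, `sin (p φ)`, `sin (t φ)` are positive (`sin_pos_win` in TT/F.lean, `D ≤ A + 1`, `p ≤ A + 1`, `t ≤ A + 1`), so `S = 0`.
(`no_plus` in TT/F.lean is the model for the use of `no_cyc`.)
-/

set_option autoImplicit false

namespace Pool.Agent.Helper27.OC

open Finset Polynomial Pool.Agent.Helper62.OB Pool.Agent.Helper27.TT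

theorem one_sub_exp (φ : ℝ) (n : ℕ) : 1 - Complex.exp (2 * φ * Complex.I) ^ n =
    -2 * Complex.I * ((Real.sin (n * φ) : ℝ) : ℂ) * Complex.exp (φ * Complex.I) ^ n := by
  have h1 : Complex.exp (2 * φ * Complex.I) ^ n =
      Complex.exp (n * φ * Complex.I) * Complex.exp (n * φ * Complex.I) := by
    rw [← Complex.exp_nat_mul, ← Complex.exp_add]
    congr 1
    ring
  have h2 : Complex.exp (φ * Complex.I) ^ n = Complex.exp (n * φ * Complex.I) := by
    rw [← Complex.exp_nat_mul]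
    congr 1
    ring
  have h3 : Complex.exp (-(n * φ) * Complex.I) * Complex.exp (n * φ * Complex.I) = 1 := by
    rw [← Complex.exp_add, ← Complex.exp_zero]
    congr 1
    ring
  rw [h1, h2, Complex.ofReal_sin, Complex.sin]
  push_cast
  have hI : Complex.I ^ 2 = -1 := Complex.I_sq
  linear_combination (-1 : ℂ) * h3 + (Complex.exp (-(n * φ) * Complex.I) -
    Complex.exp (n * φ * Complex.I)) * Complex.exp (n * φ * Complex.I) * hI

theorem key_ring (x : ℂ) (t k j D : ℕ) (hD : D = k * (t + 1) + (j + 1) * t) :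
    x ^ (t * j) * ((1 - x ^ ((t + 1) * D)) * (1 - x ^ (k * (t + 1))) * (1 - x ^ t) +
      x ^ (k * (t + 1)) * (1 - x ^ (t * D)) * (1 - x ^ ((j + 1) * t)) * (1 - x ^ (t + 1)) +
      x ^ (t * D + k * (t + 1)) * (1 - x ^ D) * (1 - x ^ (t + 1)) * (1 - x ^ t)) =
    (1 - x ^ (t * (j + 1))) * (1 - x ^ ((t + 1) * D)) * (1 - x ^ (D + 1)) -
      (1 - x ^ (t * j)) * (1 - x ^ ((t + 1) * (D + 1))) * (1 - x ^ D) := by
  have e1 : x ^ D = x ^ (k * (t + 1)) * x ^ (t * j) * x ^ t := by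
    rw [hD, ← pow_add, ← pow_add]; congr 1; ring
  have e2 : x ^ ((t + 1) * D) = x ^ (t * D) * x ^ D := by
    rw [← pow_add]; congr 1; ring
  have e3 : x ^ ((t + 1) * (D + 1)) = x ^ (t * D) * x ^ D * x ^ t * x := by
    rw [← pow_add, ← pow_add, ← pow_succ]; congr 1; ring
  have e4 : x ^ (t * (j + 1)) = x ^ (t * j) * x ^ t := by
    rw [← pow_add]; congr 1
  have e5 : x ^ ((j + 1) * t) = x ^ (t * j) * x ^ t := by
    rw [← pow_add]; congr 1; ring
  have e6 : x ^ (D + 1) = x ^ D * x := pow_succ _ _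
  have e7 : x ^ (t + 1) = x ^ t * x := pow_succ _ _
  have e8 : x ^ (t * D + k * (t + 1)) = x ^ (t * D) * x ^ (k * (t + 1)) := pow_add _ _ _
  rw [e2, e3, e4, e5, e6, e7, e8, e1]
  ring

theorem key_EE (φ : ℝ) (t j D : ℕ) (x y : ℂ)
    (hx : x = Complex.exp (2 * φ * Complex.I)) (hy : y = Complex.exp (φ * Complex.I)) :
    (1 - x ^ (t * (j + 1))) * (1 - x ^ ((t + 1) * D)) * (1 - x ^ (D + 1)) -
      (1 - x ^ (t * j)) * (1 - x ^ ((t + 1) * (D + 1))) * (1 - x ^ D) =
    (-2 * Complex.I) ^ 3 * y ^ (t * (j + 1) + (t + 1) * D + (D + 1)) * (EE t j D φ : ℂ) := by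
  have f1 : y ^ (t * (j + 1) + (t + 1) * D + (D + 1)) =
      y ^ (t * (j + 1)) * y ^ ((t + 1) * D) * y ^ (D + 1) := by
    rw [← pow_add, ← pow_add]
  have f2 : y ^ (t * (j + 1) + (t + 1) * D + (D + 1)) =
      y ^ (t * j) * y ^ ((t + 1) * (D + 1)) * y ^ D := by
    rw [← pow_add, ← pow_add]; congr 1; ring
  have g : ∀ n : ℕ, 1 - x ^ n = -2 * Complex.I * ((Real.sin (n * φ) : ℝ) : ℂ) * y ^ n := by
    intro n
    rw [hx, hy]
    exact one_sub_exp φ n
  rw [g, g, g, g, g, g]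
  unfold EE
  push_cast
  rw [mul_sub]
  congr 1
  · rw [f1]; ring
  · rw [f2]; ring

theorem no_exc (w t k J : ℕ) (s : ℕ → ℕ) (ht : 3 ≤ t) (hk : 1 ≤ k) (hJ : 2 ≤ J)
    (hw : w = k * (t + 1) + 1 + J * t)
    (hsum : ∀ x : ℂ, (∑ i ∈ range w, x ^ s i) *
        ((1 - x ^ (w - 1)) * (1 - x ^ (t + 1)) * (1 - x ^ t)) =
      (1 - x ^ ((t + 1) * (w - 1))) * (1 - x ^ (k * (t + 1))) * (1 - x ^ t) +
      x ^ (k * (t + 1)) * (1 - x ^ (t * (w - 1))) * (1 - x ^ (J * t)) * (1 - x ^ (t + 1)) +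
      x ^ (t * (w - 1) + k * (t + 1)) * (1 - x ^ (w - 1)) * (1 - x ^ (t + 1)) * (1 - x ^ t))
    (M : Multiset ℕ) (hM : ∀ N ∈ M, 0 < N)
    (hP : ∑ k ∈ range w, (X : ℤ[X]) ^ s k = (M.map (fun N => cyclotomic N ℤ)).prod ∨
      ∑ k ∈ range w, (X : ℤ[X]) ^ s k = -(M.map (fun N => cyclotomic N ℤ)).prod) : False := by
  obtain ⟨j, rfl⟩ : ∃ j, J = j + 1 := ⟨J - 1, by omega⟩
  set D := w - 1 with hDd
  have hD : D = k * (t + 1) + (j + 1) * t := by omega
  have hS : ∀ φ : ℝ, ∑ i ∈ range w, Complex.exp (2 * φ * Complex.I) ^ s i = cyP M φ ∨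
      ∑ i ∈ range w, Complex.exp (2 * φ * Complex.I) ^ s i = -cyP M φ := by
    intro φ
    have h2 : ((M.map (fun N => cyclotomic N ℤ)).prod.map (Int.castRingHom ℂ)).eval
        (Complex.exp (2 * φ * Complex.I)) = cyP M φ := by
      unfold cyP
      congr 1
      rw [Polynomial.map_multiset_prod, Multiset.map_map]
      congr 1
      apply Multiset.map_congr rfl
      intro N _
      simp only [Function.comp, map_cyclotomic]
    have h3 : ((∑ k ∈ range w, (X : ℤ[X]) ^ s k).map (Int.castRingHom ℂ)).eval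
        (Complex.exp (2 * φ * Complex.I)) =
        ∑ i ∈ range w, Complex.exp (2 * φ * Complex.I) ^ s i := by
      simp only [Polynomial.map_sum, Polynomial.map_pow, map_X, eval_finsetSum, eval_pow, eval_X]
    rcases hP with h | h
    · left
      rw [← h3, ← h2, h]
    · right
      rw [← h3, ← h2, h, Polynomial.map_neg, eval_neg]
  have hmain : ∀ φ : ℝ, Complex.exp (2 * φ * Complex.I) ^ (t * j) *
      ((∑ i ∈ range w, Complex.exp (2 * φ * Complex.I) ^ s i) *
        ((1 - Complex.exp (2 * φ * Complex.I) ^ D) *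
          (1 - Complex.exp (2 * φ * Complex.I) ^ (t + 1)) *
          (1 - Complex.exp (2 * φ * Complex.I) ^ t))) =
      (-2 * Complex.I) ^ 3 * Complex.exp (φ * Complex.I) ^
        (t * (j + 1) + (t + 1) * D + (D + 1)) * (EE t j D φ : ℂ) := by
    intro φ
    rw [hsum, key_ring _ t k j D hD]
    exact key_EE φ t j D _ _ rfl rfl
  have hI : (-2 * Complex.I : ℂ) ^ 3 ≠ 0 :=
    pow_ne_zero _ (mul_ne_zero (by norm_num) Complex.I_ne_zero)
  refine no_cyc t j k D ht (by omega) hk (by rw [hD]; ring) M hM ?_ ?_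
  · intro φ h0
    have hS0 : ∑ i ∈ range w, Complex.exp (2 * φ * Complex.I) ^ s i = 0 := by
      rcases hS φ with h | h
      · rw [h, h0]
      · rw [h, h0, neg_zero]
    have h1 := hmain φ
    rw [hS0, zero_mul, mul_zero] at h1
    have h2 := (mul_eq_zero.1 h1.symm).resolve_left
      (mul_ne_zero hI (pow_ne_zero _ (Complex.exp_ne_zero _)))
    exact_mod_cast h2
  · intro φ p0 p1 h0
    have h1 := hmain φ
    rw [h0, Complex.ofReal_zero, mul_zero] at h1
    have h2 := (mul_eq_zero.1 h1).resolve_left (pow_ne_zero _ (Complex.exp_ne_zero _))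
    have s1 := sin_pos_win t D t ht φ p0 p1 (by omega) (Or.inr le_rfl)
    have hjt : t ≤ (j + 1) * t := Nat.le_mul_of_pos_left t (by omega)
    have hkt : t + 1 ≤ k * (t + 1) := Nat.le_mul_of_pos_left (t + 1) (by omega)
    have s2 := sin_pos_win t D D ht φ p0 p1 (by omega) (Or.inl (by omega))
    have s3 := sin_pos_win t D (t + 1) ht φ p0 p1 (by omega) (Or.inl (by omega))
    have q : ∀ n : ℕ, 0 < Real.sin (n * φ) →
        1 - Complex.exp (2 * φ * Complex.I) ^ n ≠ 0 := by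
      intro n hn
      rw [one_sub_exp]
      refine mul_ne_zero (mul_ne_zero (mul_ne_zero (by norm_num) Complex.I_ne_zero) ?_)
        (pow_ne_zero _ (Complex.exp_ne_zero _))
      exact_mod_cast hn.ne'
    have h3 := (mul_eq_zero.1 h2).resolve_right
      (mul_ne_zero (mul_ne_zero (q D s2) (q (t + 1) s3)) (q t s1))
    rcases hS φ with h | h
    · rw [← h, h3]
    · rw [h3] at h
      exact neg_eq_zero.1 h.symm

end Pool.Agent.Helper27.OC
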