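import Mathlib
import Pool.Agent.Helper27.TT.D2
import Pool.Agent.Helper62.OB.Iter

/-!
# OC-14: `t = 1`

`oneBridge m b 1 = rn m 0 b * rn m 0 m`.
* `one_even`: `Orb w b 1`, `1 ≤ b < w`: `b` is even.  The places are `1, 3, 5, ...` (step `2` as long as the place is `< b`); if `b` is odd the place at step `(b - 1) / 2` is `b`, so
  `(b - 1) / 2 = w - 1`, but `w > b`.
* `one_iter`: induction on `m ≥ b`.  For `m = b`: `rn b 0 b * rn b 0 b = rn b 0 b ^ 2`, `torus_iter b 2` (OB/Iter.lean).  For `m + 1`, `m ≥ b`: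
  `rn (m+1) 0 (m+1) = sg (m+1) m * rn (m+1) 0 m`; conjugating, `rn (m+1) 0 b * (sg * rn (m+1) 0 m)` becomes `rn (m+1) 0 m * rn (m+1) 0 b * sg (m+1) m
  = addStrand m (rn m 0 m * rn m 0 b) * sigma (Fin.last m)` (`d2_addStrand_rn`, `d2_sg_last`, `d2_destab` in TT/D2.lean), a stabilisation of `rn m 0 m * rn m 0 b`, which is conjugate to
  `rn m 0 b * rn m 0 m`.  (`iter_conj`, `iter_conj'` in OB/Iter.lean; `IsIterTorus.markov`.)
-/

set_option autoImplicit false

namespace Pool.Agent.Helper27.OC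

open Pool.Agent.Helper62.OB Pool.Agent.Helper27.TT

theorem one_even {w b : ℕ} (hb0 : 1 ≤ b) (hb : b < w) (h : Orb w b 1) : Even b := by
  rw [← Nat.not_odd_iff_even]
  rintro ⟨j, hj⟩
  have key : ∀ k, k ≤ j → xs w b 1 k = 2 * k + 1 := by
    intro k
    induction k with
    | zero =>
      intro _
      change 1 % w = 1
      exact Nat.mod_eq_of_lt (by omega)
    | succ k ih =>
      intro hk
      have h1 := ih (by omega)
      have h2 : cb b (2 * k + 1) = 2 * k + 1 + 1 := by
        unfold cb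
        rw [if_pos (by omega)]
      rw [xs_succ, h1, h2, Nat.mod_eq_of_lt (by omega)]
      ring
  have h3 := key j le_rfl
  exact xs_ne h (k := j) (by omega) (by rw [h3, hj])

theorem one_iter (m b : ℕ) (hb : b ≤ m) (hev : Even b) :
    IsIterTorus ⟨m, rn m 0 b * rn m 0 m ^ 1⟩ := by
  induction m, hb using Nat.le_induction with
  | base =>
    rw [pow_one, ← pow_two]
    apply torus_iter
    rw [Nat.coprime_two_right]
    exact hev.add_one
  | succ m hm ih =>
    rw [pow_one] at ih ⊢
    -- the conjugate on `m + 1` strands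
    have h1 : IsIterTorus ⟨m, rn m 0 m * rn m 0 b⟩ :=
      iter_conj (h := rn m 0 m) (by group) ih
    have h2 : IsIterTorus ⟨m + 1, addStrand m (rn m 0 m * rn m 0 b) * sigma (Fin.last m)⟩ :=
      IsIterTorus.markov _ _ (Relation.EqvGen.rel _ _ (MarkovMove.stabPos m _)) h1
    refine iter_conj' (h := rn (m + 1) 0 m) ?_ h2
    rw [map_mul, d2_addStrand_rn m 0 m (by omega), d2_addStrand_rn m 0 b (by omega),
      ← d2_sg_last, braidalg_rn_succ, zero_add]
    group

end Pool.Agent.Helper27.OC
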