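import Mathlib
import Pool.Agent.Helper27.OC.Seq
import Pool.Agent.Helper27.OC.Seq2
import Pool.Agent.Helper27.OC.Ex

/-!
(this file: `run_t`, `div_case`)
# OC-8: existence for `b < t`

`P = ∑ X^(se k)`, coefficients by `coeff_sum`, `coeff_mul_one_sub`, `w ∈ M` by `w_mem`.  `t % w ≥ 1` (`q_pos`), so `t ≠ w`.
* `t > w`: `exists_mult` with `a = A = t`: `se k ≥ t` for `k ≥ 1` (`se_succ`), so `P` has no terms of degree `1, ..., t - 1`, and `w < t`.
* `t < w`: `run_t`: induction on `k`: `t + se k = (k + 1) t < w` gives `xs k = (k + 1) t ≥ t > b` (`add_se_mod`, needs `k < w`), `ep k = 0`.  So for `m < w`: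
  (`∃ k < w, se k = m`) iff `t ∣ m` (if `se k = m < w` then `k t ≤ se k < w`, so `se k = k t`).
  If `¬ t ∣ w`: `exists_mult` with `a = t`, `A = w`: the coefficient of degree `w` is `coeff_w P - coeff_{w - t} P = 0 - 0` (`se_ne_w`).
* `t ∣ w`: `div_case`: `w = n t`, `n ≥ 2`.  For `j ≤ b`, `i < n`: `se (j n + i) = j (w + 1) + i t`, by induction on `j` and `i`: place `j + (i + 1) t` for
  `i < n - 1` (it is `≥ t > b` and `< w` because `j ≤ b < t`), so `ep = 0`; place `j` for `i = n - 1`, `ep = 1` if `j < b`.  (`j n + i ≤ b n + n - 1 < w` because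
  `b + 1 ≤ t`.)  At `j = b`, `i = n - 1` the place is `b`, so the index is `w - 1`: `(b + 1) n = w = n t`.
-/

set_option autoImplicit false

namespace Pool.Agent.Helper27.OC

open Finset Polynomial Pool.Agent.Helper62.OB

theorem run_t {w b t : ℕ} (hb0 : 0 < b) (hb : b < w - 1) (hbt : b < t) (h : Orb w b t) (k : ℕ)
    (hk : k * t < w) : se w b t k = k * t := by
  induction k with
  | zero => rw [se_zero, Nat.zero_mul]
  | succ k ih =>
    have hk1 : k * t + t < w := by
      rw [← Nat.succ_mul]
      exact hk
    have h1 := ih (by omega)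
    have hkw : k < w := by
      have h2 : k * 1 ≤ k * t := Nat.mul_le_mul_left k (by omega)
      omega
    have h3 := add_se_mod (show b < w by omega) h hkw
    rw [h1, Nat.mod_eq_of_lt (show t + k * t < w by omega)] at h3
    have h4 : ep w b t k = 0 := by
      unfold ep
      rw [if_neg (by rw [← h3]; omega)]
    rw [se_succ, h1, h4, Nat.succ_mul, Nat.add_zero]

theorem div_case {w b t : ℕ} (hb0 : 0 < b) (hb : b < w - 1) (hbt : b < t) (htw : t < w)
    (h : Orb w b t) (hd : t ∣ w) : b + 1 = t := by
  obtain ⟨n, hn⟩ := hd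
  have hn2 : 2 ≤ n := by
    by_contra hc
    have h1 : n = 0 ∨ n = 1 := by omega
    rcases h1 with rfl | rfl
    · omega
    · omega
  have hbw : b < w := by omega
  have hidx : ∀ j ≤ b, ∀ i < n, j * n + i < w := by
    intro j hj i hi
    have h1 : (j + 1) * n ≤ t * n := Nat.mul_le_mul_right n (by omega)
    rw [Nat.succ_mul, ← hn] at h1
    omega
  have hmul : ∀ i < n, i * t + t ≤ w := by
    intro i hi
    have h1 : (i + 1) * t ≤ n * t := Nat.mul_le_mul_right t (by omega)
    rw [Nat.succ_mul, Nat.mul_comm n t, ← hn] at h1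
    exact h1
  have key : ∀ j ≤ b, ∀ i < n, se w b t (j * n + i) = j * (w + 1) + i * t := by
    intro j
    induction j with
    | zero =>
      intro _ i hi
      have h1 := hmul i hi
      rw [Nat.zero_mul, Nat.zero_mul, Nat.zero_add, Nat.zero_add]
      exact run_t hb0 hb hbt h i (by omega)
    | succ j ihj =>
      intro hj i
      induction i with
      | zero =>
        intro _
        have h1 := ihj (by omega) (n - 1) (by omega)
        have h2 := hidx j (by omega) (n - 1) (by omega)
        have h3 := add_se_mod hbw h h2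
        have h4 : (n - 1) * t + t = w := by
          have h5 : n - 1 + 1 = n := by omega
          have h6 : (n - 1 + 1) * t = n * t := by rw [h5]
          rw [Nat.succ_mul, Nat.mul_comm n t, ← hn] at h6
          exact h6
        have h5 : t + (j * (w + 1) + (n - 1) * t) = j + w * (j + 1) := by
          rw [Nat.mul_succ, Nat.mul_succ, Nat.mul_comm j w]
          omega
        rw [h1, h5, Nat.add_mul_mod_self_left, Nat.mod_eq_of_lt (show j < w by omega)] at h3
        have h6 : ep w b t (j * n + (n - 1)) = 1 := by
          unfold ep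
          rw [if_pos (by rw [← h3]; omega)]
        have h7 : (j + 1) * n + 0 = j * n + (n - 1) + 1 := by
          rw [Nat.succ_mul]
          omega
        rw [h7, se_succ, h1, h6, Nat.zero_mul, Nat.succ_mul]
        omega
      | succ i ihi =>
        intro hi
        have h1 := ihi (by omega)
        have h2 := hidx (j + 1) hj i (by omega)
        have h3 := add_se_mod hbw h h2
        have h4 := hmul (i + 1) hi
        rw [Nat.succ_mul] at h4
        have h5 : t + ((j + 1) * (w + 1) + i * t) = (j + 1 + (i * t + t)) + w * (j + 1) := by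
          rw [Nat.mul_succ, Nat.mul_comm (j + 1) w]
          omega
        rw [h1, h5, Nat.add_mul_mod_self_left,
          Nat.mod_eq_of_lt (show j + 1 + (i * t + t) < w by omega)] at h3
        have h6 : ep w b t ((j + 1) * n + i) = 0 := by
          unfold ep
          rw [if_neg (by rw [← h3]; omega)]
        rw [← Nat.add_assoc, se_succ, h1, h6, Nat.succ_mul i t]
        omega
  have h1 := key b le_rfl (n - 1) (by omega)
  have h2 := hidx b le_rfl (n - 1) (by omega)
  have h3 := add_se_mod hbw h h2
  have h4 : (n - 1) * t + t = w := by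
    have h5 : n - 1 + 1 = n := by omega
    have h6 : (n - 1 + 1) * t = n * t := by rw [h5]
    rw [Nat.succ_mul, Nat.mul_comm n t, ← hn] at h6
    exact h6
  have h5 : t + (b * (w + 1) + (n - 1) * t) = b + w * (b + 1) := by
    rw [Nat.mul_succ, Nat.mul_succ, Nat.mul_comm b w]
    omega
  rw [h1, h5, Nat.add_mul_mod_self_left, Nat.mod_eq_of_lt hbw] at h3
  have h6 := h.1 _ h2 (w - 1) (by omega) (h3.symm.trans h.2.symm)
  have h7 : (b + 1) * n = t * n := by
    rw [Nat.succ_mul, ← hn]
    omega
  exact Nat.eq_of_mul_eq_mul_right (by omega) h7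

end Pool.Agent.Helper27.OC
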