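import Mathlib
import Pool.Agent.Helper27.OC.RunA1
import Pool.Agent.Helper27.OC.Seq
import Pool.Agent.Helper27.OC.Seq2
import Pool.Agent.Helper27.OC.Ex

/-!
(this file: `exA`; `run_t`, `div_case` are in `RunA1`, proved by somebody else)
# OC-8: existence for `b < t`

`P = ∑ X^(se k)`, coefficients by `coeff_sum`, `coeff_mul_one_sub`, `w ∈ M` by `w_mem`.  `t % w ≥ 1` (`q_pos`), so `t ≠ w`.
* `t > w`: `exists_mult` with `a = A = t`: `se k ≥ t` for `k ≥ 1` (`se_succ`), so `P` has no terms of degree `1, ..., t - 1`, and `w < t`.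
* `t < w`: `run_t`: induction on `k`: `t + se k = (k + 1) t < w` gives `xs k = (k + 1) t ≥ t > b` (`add_se_mod`, needs `k < w`), `ep k = 0`.  So for `m < w`:
  (`∃ k < w, se k = m`) iff `t ∣ m` (if `se k = m < w` then `k t ≤ se k < w`, so `se k = k t`).
  If `¬ t ∣ w`: `exists_mult` with `a = t`, `A = w`: the coefficient of degree `w` is `coeff_w P - coeff_{w - t} P = 0 - 0` (`se_ne_w`).
* `t ∣ w`: `div_case`: `w = n t`, `n ≥ 2`.  For `j ≤ b`, `i < n`: `se (j n + i) = j (w + 1) + i t`, by induction on `j` and `i`: place `j + (i + 1) t` for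
  `i < n - 1` (it is `≥ t > b` and `< w` because `j ≤ b < t`), so `ep = 0`; place `j` for `i = n - 1`, `ep = 1` if `j < b`.  (`j n + i ≤ b n + n - 1 < w` because
  `b + 1 ≤ t`.)  At `j = b`, `i = n - 1` the place is `b`, so the index is `w - 1`: `(b + 1) n = w = n t`.
-/

set_option autoImplicit false

namespace Pool.Agent.Helper27.OC

open Finset Polynomial Pool.Agent.Helper62.OB

/-- the terms of degree less than `w` are the multiples of `t` -/
theorem exA_iff {w b t : ℕ} (hb0 : 0 < b) (hb : b < w - 1) (hbt : b < t) (h : Orb w b t) (m : ℕ)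
    (hm : m < w) : (∃ k < w, se w b t k = m) ↔ t ∣ m := by
  constructor
  · rintro ⟨k, _, rfl⟩
    have h1 : k * t ≤ se w b t k := by
      have h2 := se_eq w b t k
      have h3 : (0 : ℤ) ≤ pS (ep w b t) k := by positivity
      have h4 : ((k * t : ℕ) : ℤ) ≤ (se w b t k : ℤ) := by
        push_cast
        linarith [mul_comm (t : ℤ) (k : ℤ)]
      exact_mod_cast h4
    rw [run_t hb0 hb hbt h k (lt_of_le_of_lt h1 hm)]
    exact dvd_mul_left _ _
  · rintro ⟨k, rfl⟩
    have h1 : k * t < w := by rwa [mul_comm]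
    have h2 : k ≤ k * t := Nat.le_mul_of_pos_right k (by omega)
    exact ⟨k, by omega, by rw [run_t hb0 hb hbt h k h1, mul_comm]⟩

theorem exA {w b t : ℕ} (hb0 : 0 < b) (hb : b < w - 1) (hbt : b < t) (h : Orb w b t)
    (M : Multiset ℕ) (hM : ∀ N ∈ M, 0 < N)
    (hP : ∑ k ∈ range w, (X : ℤ[X]) ^ se w b t k = (M.map (fun N => cyclotomic N ℤ)).prod ∨
      ∑ k ∈ range w, (X : ℤ[X]) ^ se w b t k = -(M.map (fun N => cyclotomic N ℤ)).prod) :
    (∃ N ∈ M, w ∣ N ∧ N ≠ w) ∨ ((b + 1) ∣ w ∧ (b + 1) ∣ t) := by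
  have ht : 1 ≤ t := by omega
  have hw : 0 < w := by omega
  have hw2 : 2 ≤ w := by omega
  have hbw : b < w := by omega
  have hwM := w_mem hbw hw2 h M hM hP
  have hq := q_pos hb h
  have htw : t ≠ w := by
    rintro rfl
    rw [Nat.mod_self] at hq
    omega
  have hc0 : (∑ k ∈ range w, (X : ℤ[X]) ^ se w b t k).coeff 0 = 1 := by
    rw [coeff_sum ht, if_pos ⟨0, hw, se_zero w b t⟩]
  rcases lt_or_gt_of_ne htw with hlt | hgt
  · by_cases hd : t ∣ w
    · right
      have h1 := div_case hb0 hb hbt hlt h hd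
      rw [h1]
      exact ⟨hd, dvd_refl _⟩
    · left
      refine exists_mult M hM _ hP w t w hw2 hwM ht htw (by omega) (by omega) hc0 ?_ ?_
      · intro m hm hmw
        rw [coeff_mul_one_sub, coeff_sum ht]
        by_cases h1 : t ≤ m
        · rw [if_pos h1, coeff_sum ht]
          have h2 : (∃ k < w, se w b t k = m) ↔ (∃ k < w, se w b t k = m - t) := by
            rw [exA_iff hb0 hb hbt h m hmw, exA_iff hb0 hb hbt h (m - t) (by omega)]
            exact (Nat.dvd_sub_iff_left h1 (dvd_refl t)).symm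
          by_cases h3 : ∃ k < w, se w b t k = m
          · rw [if_pos h3, if_pos (h2.1 h3), sub_self]
          · rw [if_neg h3, if_neg (fun h4 => h3 (h2.2 h4)), sub_self]
        · rw [if_neg h1, if_neg, sub_self]
          rw [exA_iff hb0 hb hbt h m hmw]
          intro h2
          have := Nat.le_of_dvd hm h2
          omega
      · rw [coeff_mul_one_sub, coeff_sum ht, if_pos hlt.le, coeff_sum ht, if_neg, if_neg, sub_self]
        · rw [exA_iff hb0 hb hbt h (w - t) (by omega)]
          intro h2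
          apply hd
          have h3 := Nat.dvd_add h2 (dvd_refl t)
          rwa [Nat.sub_add_cancel hlt.le] at h3
        · rintro ⟨k, hk, h2⟩
          exact se_ne_w hbw ht h hw2 hk h2
  · left
    have hz : ∀ m, 0 < m → m < t → (∑ k ∈ range w, (X : ℤ[X]) ^ se w b t k).coeff m = 0 := by
      intro m hm hmt
      rw [coeff_sum ht, if_neg]
      rintro ⟨k, _, h2⟩
      cases k with
      | zero =>
        rw [se_zero] at h2
        omega
      | succ k =>
        have h3 := se_succ w b t k
        omega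
    have hz2 : ∀ m, 0 < m → m < t →
        ((∑ k ∈ range w, (X : ℤ[X]) ^ se w b t k) * (1 - X ^ t)).coeff m = 0 := by
      intro m hm hmt
      rw [coeff_mul_one_sub, hz m hm hmt, if_neg (by omega), sub_self]
    exact exists_mult M hM _ hP w t t hw2 hwM ht htw ht (by omega) hc0 hz2 (hz2 w hw hgt)

end Pool.Agent.Helper27.OC
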