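import Mathlib
import Pool.Agent.Helper27.OC.RunB1
import Pool.Agent.Helper27.OC.Seq
import Pool.Agent.Helper27.OC.Seq2
import Pool.Agent.Helper27.OC.Ex

/-!
(this file: `exB`; the first two are in `RunB1`, proved by somebody else)
# OC-9: existence for `t < b`

Let `p = t + 1`, `k = (b + 1) / p`, `q₀ = (b + 1) % p`, so `b + 1 = k p + q₀`, `k ≥ 1`.
* `runB_se`: for `i < k` (and `i < w`) the place is `t + i p ≤ k p - 1 ≤ b`; if it is `< b` then `ep i = 1`.  It is `b` only if `i = k - 1` and `q₀ = 0`; then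
  `i = w - 1` by `xs_ne`/injectivity, `w = k`, but `b + 1 = k p > k = w`: contradiction.  So `q₀ ≥ 1` and `se i = i p` for `i ≤ k` (note `k < w`).
* `runB_next`: `se (k + 1) ≥ se k + t = k p + t`.
* For `0 < m < A := (k + 1) p - 1 = k p + t`: (`∃ j < w, se j = m`) iff `p ∣ m`.
* `exB`: `exists_mult` with `a = p`, `A`: `w < 2 A` by `hw`.  The coefficients of degree `m`, `0 < m < A`, of `P (1 - X^p)` vanish.  The coefficient of degree
  `w` is `0 - coeff_{w - p} P` (`se_ne_w`).  If it is not `0`: `se j = w - p` for some `j < w`; the place is `(t + w - p) % w = w - 1 > b`, so `j < w - 1` (`h.2`), `ep j = 0` and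
  `se (j + 1) = w - p + t = w - 1`.
-/

set_option autoImplicit false

namespace Pool.Agent.Helper27.OC

open Finset Polynomial Pool.Agent.Helper62.OB

theorem exB_ge {w b t : ℕ} (ht : 1 ≤ t) (htb : t < b) (hb : b < w - 1) (h : Orb w b t) {j : ℕ}
    (hj : (b + 1) / (t + 1) + 1 ≤ j) : (b + 1) / (t + 1) * (t + 1) + t ≤ se w b t j := by
  have h1 := (se_strictMono (w := w) (b := b) ht).monotone hj
  have h2 := se_succ w b t ((b + 1) / (t + 1))
  rw [runB_se ht htb hb h _ le_rfl] at h2
  omega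

theorem exB_char {w b t : ℕ} (ht : 1 ≤ t) (htb : t < b) (hb : b < w - 1) (h : Orb w b t) {m : ℕ}
    (hm : m < (b + 1) / (t + 1) * (t + 1) + t) : (∃ j < w, se w b t j = m) ↔ (t + 1) ∣ m := by
  have hk : (b + 1) / (t + 1) ≤ b + 1 := Nat.div_le_self _ _
  constructor
  · rintro ⟨j, _, hj⟩
    rcases Nat.lt_or_ge j ((b + 1) / (t + 1) + 1) with h1 | h1
    · rw [runB_se ht htb hb h j (by omega)] at hj
      exact ⟨j, by rw [← hj, mul_comm]⟩
    · have h2 := exB_ge ht htb hb h h1
      omega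
  · rintro ⟨i, rfl⟩
    have hi : i ≤ (b + 1) / (t + 1) := by
      by_contra hcon
      have h1 : (b + 1) / (t + 1) + 1 ≤ i := by omega
      have h2 := Nat.mul_le_mul_right (t + 1) h1
      rw [add_mul, one_mul] at h2
      rw [mul_comm] at hm
      omega
    exact ⟨i, by omega, by rw [runB_se ht htb hb h i hi, mul_comm]⟩

theorem exB {w b t : ℕ} (ht : 1 ≤ t) (htb : t < b) (hb : b < w - 1) (h : Orb w b t)
    (hw : w + 2 < 2 * ((t + 1) * ((b + 1) / (t + 1) + 1)))
    (M : Multiset ℕ) (hM : ∀ N ∈ M, 0 < N)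
    (hP : ∑ k ∈ range w, (X : ℤ[X]) ^ se w b t k = (M.map (fun N => cyclotomic N ℤ)).prod ∨
      ∑ k ∈ range w, (X : ℤ[X]) ^ se w b t k = -(M.map (fun N => cyclotomic N ℤ)).prod) :
    (∃ N ∈ M, w ∣ N ∧ N ≠ w) ∨ ∃ n < w, se w b t n = w - 1 := by
  have hbw : b < w := by omega
  have hw2 : 2 ≤ w := by omega
  by_cases hex : ∃ j < w, se w b t j = w - (t + 1)
  · right
    obtain ⟨j, hj, hje⟩ := hex
    have h1 := add_se_mod hbw h hj
    have h2 : t + se w b t j = w - 1 := by omega
    rw [h2, Nat.mod_eq_of_lt (by omega)] at h1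
    have h3 : j ≠ w - 1 := by
      rintro rfl
      have h4 := h.2
      omega
    have h5 : ep w b t j = 0 := by
      unfold ep
      rw [if_neg (by omega)]
    have h6 := se_succ w b t j
    exact ⟨j + 1, by omega, by omega⟩
  · left
    have hA : (b + 1) / (t + 1) * (t + 1) + t + 1 = (t + 1) * ((b + 1) / (t + 1) + 1) := by ring
    have hchar := fun m (hm : m < (b + 1) / (t + 1) * (t + 1) + t) => exB_char ht htb hb h hm
    refine exists_mult M hM _ hP w (t + 1) ((b + 1) / (t + 1) * (t + 1) + t) hw2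
      (w_mem hbw hw2 h M hM hP) (by omega) (by omega) (by omega) (by omega) ?_ ?_ ?_
    · rw [coeff_sum ht, if_pos ⟨0, by omega, se_zero w b t⟩]
    · intro m hm hmA
      rw [coeff_mul_one_sub, coeff_sum ht]
      by_cases hd : (t + 1) ∣ m
      · have hle : t + 1 ≤ m := Nat.le_of_dvd hm hd
        rw [if_pos ((hchar m hmA).2 hd), if_pos hle, coeff_sum ht,
          if_pos ((hchar (m - (t + 1)) (by omega)).2 (Nat.dvd_sub hd dvd_rfl)), sub_self]
      · rw [if_neg (fun h' => hd ((hchar m hmA).1 h'))]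
        by_cases hle : t + 1 ≤ m
        · rw [if_pos hle, coeff_sum ht, if_neg, sub_zero]
          intro h'
          have h7 := (hchar (m - (t + 1)) (by omega)).1 h'
          exact hd ((Nat.dvd_sub_iff_left hle dvd_rfl).1 h7)
        · rw [if_neg hle, sub_zero]
    · rw [coeff_mul_one_sub, coeff_sum ht, if_neg, if_pos (by omega), coeff_sum ht, if_neg hex,
        sub_zero]
      rintro ⟨j, hj, hje⟩
      exact se_ne_w hbw ht h hw2 hj hje

end Pool.Agent.Helper27.OC
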