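import Mathlib
import Pool.Agent.Helper62.OB.Defs
import Pool.Agent.Helper81.KeyPoly

/-!
(this file: `three_id1`, `three_id2`)
# OC-13: `t = 2` (closed 3-braids)

`keyVal b j x = 1 + x^b (1 - x + ... ± x^(j-1)) + x^(2b+j-1)`; for odd `j`: `(1 + x) keyVal b j x = (1 + x) + x^b (1 + x^j) + (1 + x) x^(2b+j-1)` (`one_add_mul_altGeom`).
* `three_id1`: `t = 2` in `exc_sum`, `w = 3 k + 1 + 2 J`, `J ≥ 1`, `D = w - 1`.  With `U = X^(3k)`, `V = X^(2J)`: `X^D = U V`, `X^w = U V X`, `X^(2 D) = U² V²`, `X^(3 D) = U³ V³`, and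
  `P (1 - X^D) (1 - X^3) (1 - X^2) = (1 - U³V³) (1 - U) (1 - X²) + U (1 - U²V²) (1 - V) (1 - X³) + U³V² (1 - UV) (1 - X³) (1 - X²)`;
  `keyVal (3k+2) (2J-1) (1 + X) = (1 + X) + U X² (1 + V / X) + (1 + X) U² V X²` (`X^(b + j) = U V X`, `X^(2b+j-1) = U² V X²`).
  So `P (1 - X^3) (1 - X^D) (1 - X^2) = keyVal (1 - X^w) (1 - X^D) (1 - X^2)` by `ring` (use `(1 - X²) = (1 - X)(1 + X)`), and `(1 - X^D) (1 - X^2) ≠ 0`.
* `three_se2`: `b = 3 k + 1` and no `n` with `se n = w - 1`.  The orbit (`t = 2`): `se i = 3 i` for `i ≤ k` (`runB_se`, `(b + 1) / 3 = k`, `(b + 1) % 3 = 2`), place `3 k + 2 + 2 i` at step `k + i` as long as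
  it is `< w`; it does not pass through `w - 1`, so it hits `w`: `w = 3 k + 2 + 2 J`, `J ≥ 1`.  Then place `0` at step `k + J`, places `3 i` at step `k + J + i` for `i ≤ k`, place
  `3 k + 3 + 2 i` at step `2 k + J + 1 + i` for `i < J` (the last one is `w - 1 = 3 k + 3 + 2 (J - 1)`), then place `1` at step `2 k + 2 J + 1`, places `1 + 3 i` for `i ≤ k`, the last one is `b`.
  So `P = ∑_{i<k} X^(3i) + X^(3k) ∑_{i<J} X^(2i) + X^(w-2) ∑_{i≤k} X^(3i) + X^(w-2+3k+3) ∑_{i<J} X^(2i) + X^(2w-1) ∑_{i≤k} X^(3i)`.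
* `three_id2`: hence `P (1 - X^3) (1 - X^2) = (1 - U)(1 - X²) + U (1 - V)(1 - X³) + U V ((1 - U X³)(1 - X²) + U X³ (1 - V)(1 - X³)) + U² V² X³ (1 - U X³)(1 - X²)` and
  `P (1 - X^3) = keyVal (3k+2) (2J+1) (1 - X^w)` (checked).
* `three`: `q₀ = (b + 1) % 3 ∈ {1, 2}` (`runB_mod`).  If some `se n = w - 1`: `exc_par` with `t = 2`; `J = 1`: `w = 3 (k + 1)`, `w - b = 3`; `J ≥ 2`: `key_not` with `j = 2 J - 1`.
  If not: `q₀ = 2` gives `key_not` with `j = 2 J + 1`.  `q₀ = 1`, `b = 3 k` is impossible: places `3 k + 2 + 2 i`, it does not pass through `w - 1`, so `w = 3 k + 2 + 2 J'` and place `0`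
  at step `k + J'`, then places `3 i`, `i ≤ k`, at step `k + J' + i`, so place `3 k = b` at step `2 k + J' < w - 1`, contradiction to `xs_ne`.
-/

set_option autoImplicit false

namespace Pool.Agent.Helper27.OC

open Finset Polynomial Pool.Agent.Helper62.OB Pool.Agent.Helper81

private theorem one_sub_X_pow_ne_zero (n : ℕ) (hn : n ≠ 0) : (1 - X ^ n : ℤ[X]) ≠ 0 := by
  intro h
  have h1 := congrArg (Polynomial.eval 0) h
  simp [hn] at h1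

/-- `(1 + X) keyVal (3 k + 2) (2 m + 1) X` with the powers split. -/
private theorem key_mul (k m : ℕ) :
    (1 + X) * keyVal (3 * k + 2) (2 * m + 1) (X : ℤ[X]) =
      (1 + X) + X ^ (k * 3) * X ^ 2 * (1 + X ^ (m * 2) * X) +
        (1 + X) * ((X ^ (k * 3)) ^ 2 * X ^ 4 * X ^ (m * 2)) := by
  have h1 := one_add_mul_altGeom (X : ℤ[X]) (2 * m + 1)
  have hodd : Odd (2 * m + 1) := ⟨m, rfl⟩
  rw [hodd.neg_pow, sub_neg_eq_add] at h1
  have e1 : 2 * (3 * k + 2) + (2 * m + 1) - 1 = k * 3 + k * 3 + 4 + m * 2 := by omega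
  have e2 : 3 * k + 2 = k * 3 + 2 := by omega
  have e3 : 2 * m + 1 = m * 2 + 1 := by omega
  unfold keyVal
  rw [e1, e2]
  rw [e3] at h1 ⊢
  calc (1 + X) * (1 + X ^ (k * 3 + 2) * altGeom (X : ℤ[X]) (m * 2 + 1) +
        X ^ (k * 3 + k * 3 + 4 + m * 2))
      = (1 + X) + X ^ (k * 3 + 2) * ((1 + X) * altGeom (X : ℤ[X]) (m * 2 + 1)) +
        (1 + X) * X ^ (k * 3 + k * 3 + 4 + m * 2) := by ring
    _ = _ := by
        rw [h1]
        simp only [pow_add]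
        ring

theorem three_id1 (k J w : ℕ) (hJ : 1 ≤ J) (hw : w = k * 3 + 1 + J * 2) (P : ℤ[X])
    (hsum : P * ((1 - X ^ (w - 1)) * (1 - X ^ 3) * (1 - X ^ 2)) =
      (1 - X ^ (3 * (w - 1))) * (1 - X ^ (k * 3)) * (1 - X ^ 2) +
      X ^ (k * 3) * (1 - X ^ (2 * (w - 1))) * (1 - X ^ (J * 2)) * (1 - X ^ 3) +
      X ^ (2 * (w - 1) + k * 3) * (1 - X ^ (w - 1)) * (1 - X ^ 3) * (1 - X ^ 2)) :
    P * (1 - X ^ 3) = keyVal (3 * k + 2) (2 * J - 1) (X : ℤ[X]) * (1 - X ^ w) := by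
  obtain ⟨m, rfl⟩ : ∃ m, J = m + 1 := ⟨J - 1, by omega⟩
  have hD : (X : ℤ[X]) ^ (w - 1) = X ^ (k * 3) * X ^ (m * 2) * X ^ 2 := by
    rw [← pow_add, ← pow_add]; congr 1; omega
  have hW : (X : ℤ[X]) ^ w = X ^ (k * 3) * X ^ (m * 2) * X ^ 3 := by
    rw [← pow_add, ← pow_add]; congr 1; omega
  have hV : (X : ℤ[X]) ^ ((m + 1) * 2) = X ^ (m * 2) * X ^ 2 := by
    rw [← pow_add]; congr 1; omega
  have hj : 2 * (m + 1) - 1 = 2 * m + 1 := by omega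
  have hne1 : (1 - X ^ (w - 1) : ℤ[X]) ≠ 0 := one_sub_X_pow_ne_zero _ (by omega)
  have hne2 : (1 - X ^ 2 : ℤ[X]) ≠ 0 := one_sub_X_pow_ne_zero _ (by omega)
  have hk := key_mul k m
  rw [mul_comm 3 (w - 1), mul_comm 2 (w - 1), pow_add, pow_mul (X : ℤ[X]) (w - 1) 3,
    pow_mul (X : ℤ[X]) (w - 1) 2, hD, hV] at hsum
  rw [hD] at hne1
  rw [hj, hW]
  apply mul_right_cancel₀ (mul_ne_zero hne1 hne2)
  generalize hU : (X : ℤ[X]) ^ (k * 3) = U at *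
  generalize hT : (X : ℤ[X]) ^ (m * 2) = T at *
  calc P * (1 - X ^ 3) * ((1 - U * T * X ^ 2) * (1 - X ^ 2))
      = P * ((1 - U * T * X ^ 2) * (1 - X ^ 3) * (1 - X ^ 2)) := by ring
    _ = ((1 + X) * keyVal (3 * k + 2) (2 * m + 1) (X : ℤ[X])) *
          ((1 - U * T * X ^ 3) * (1 - U * T * X ^ 2) * (1 - X)) := by
        rw [hsum, hk]; ring
    _ = _ := by ring

private theorem geom3 (n : ℕ) :
    (∑ i ∈ range n, (X : ℤ[X]) ^ (3 * i)) * (1 - X ^ 3) = 1 - X ^ (n * 3) := by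
  have h := geom_sum_mul_neg (X ^ 3 : ℤ[X]) n
  simp only [← pow_mul] at h
  rw [h, mul_comm 3 n]

private theorem geom2 (n : ℕ) :
    (∑ i ∈ range n, (X : ℤ[X]) ^ (2 * i)) * (1 - X ^ 2) = 1 - X ^ (n * 2) := by
  have h := geom_sum_mul_neg (X ^ 2 : ℤ[X]) n
  simp only [← pow_mul] at h
  rw [h, mul_comm 2 n]

theorem three_id2 (k J w : ℕ) (hJ : 1 ≤ J) (hw : w = 3 * k + 2 + 2 * J) (P : ℤ[X])
    (hsum : P = ∑ i ∈ range k, X ^ (3 * i) + X ^ (3 * k) * ∑ i ∈ range J, X ^ (2 * i) +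
        X ^ (w - 2) * ∑ i ∈ range (k + 1), X ^ (3 * i) +
        X ^ (w - 2 + 3 * k + 3) * ∑ i ∈ range J, X ^ (2 * i) +
        X ^ (2 * w - 1) * ∑ i ∈ range (k + 1), X ^ (3 * i)) :
    P * (1 - X ^ 3) = keyVal (3 * k + 2) (2 * J + 1) (X : ℤ[X]) * (1 - X ^ w) := by
  have hW : (X : ℤ[X]) ^ w = X ^ (k * 3) * X ^ (J * 2) * X ^ 2 := by
    rw [← pow_add, ← pow_add]; congr 1; omega
  have hA : (X : ℤ[X]) ^ (w - 2) = X ^ (k * 3) * X ^ (J * 2) := by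
    rw [← pow_add]; congr 1; omega
  have hB : (X : ℤ[X]) ^ (w - 2 + 3 * k + 3) = X ^ (k * 3) * X ^ (k * 3) * X ^ (J * 2) * X ^ 3 := by
    rw [← pow_add, ← pow_add, ← pow_add]; congr 1; omega
  have hC : (X : ℤ[X]) ^ (2 * w - 1) =
      X ^ (k * 3) * X ^ (k * 3) * X ^ (J * 2) * X ^ (J * 2) * X ^ 3 := by
    rw [← pow_add, ← pow_add, ← pow_add, ← pow_add]; congr 1; omega
  have hE : (X : ℤ[X]) ^ ((k + 1) * 3) = X ^ (k * 3) * X ^ 3 := by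
    rw [← pow_add]; congr 1; omega
  have hU' : (X : ℤ[X]) ^ (3 * k) = X ^ (k * 3) := by rw [mul_comm]
  have hne2 : (1 - X ^ 2 : ℤ[X]) ≠ 0 := one_sub_X_pow_ne_zero _ (by omega)
  have hk := key_mul k J
  have g1 := geom3 k
  have g2 := geom3 (k + 1)
  have g3 := geom2 J
  rw [hE] at g2
  rw [hA, hB, hC, hU'] at hsum
  rw [hW]
  apply mul_right_cancel₀ hne2
  rw [hsum]
  generalize hU : (X : ℤ[X]) ^ (k * 3) = U at *
  generalize hT : (X : ℤ[X]) ^ (J * 2) = V at *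
  generalize hS1 : (∑ i ∈ range k, (X : ℤ[X]) ^ (3 * i)) = S1 at *
  generalize hS2 : (∑ i ∈ range (k + 1), (X : ℤ[X]) ^ (3 * i)) = S2 at *
  generalize hS3 : (∑ i ∈ range J, (X : ℤ[X]) ^ (2 * i)) = S3 at *
  calc (S1 + U * S3 + U * V * S2 + U * U * V * X ^ 3 * S3 + U * U * V * V * X ^ 3 * S2) *
        (1 - X ^ 3) * (1 - X ^ 2)
      = (S1 * (1 - X ^ 3)) * (1 - X ^ 2) + U * (S3 * (1 - X ^ 2)) * (1 - X ^ 3) +
        U * V * (S2 * (1 - X ^ 3)) * (1 - X ^ 2) +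
        U * U * V * X ^ 3 * (S3 * (1 - X ^ 2)) * (1 - X ^ 3) +
        U * U * V * V * X ^ 3 * (S2 * (1 - X ^ 3)) * (1 - X ^ 2) := by ring
    _ = ((1 + X) * keyVal (3 * k + 2) (2 * J + 1) (X : ℤ[X])) *
          ((1 - U * V * X ^ 2) * (1 - X)) := by
        rw [g1, g2, g3, hk]; ring
    _ = _ := by ring

end Pool.Agent.Helper27.OC
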