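import Mathlib
import Pool.Agent.Helper27.OC.RunB1
import Pool.Agent.Helper81.KeyPoly

/-!
(this file: `three_se2`, `three_no1`)
# OC-13: `t = 2` (closed 3-braids)

`keyVal b j x = 1 + x^b (1 - x + ... ± x^(j-1)) + x^(2b+j-1)`; for odd `j`: `(1 + x) keyVal b j x = (1 + x) + x^b (1 + x^j) + (1 + x) x^(2b+j-1)` (`one_add_mul_altGeom`).
* `three_id1`: `t = 2` in `exc_sum`, `w = 3 k + 1 + 2 J`, `J ≥ 1`, `D = w - 1`.  With `U = X^(3k)`, `V = X^(2J)`: `X^D = U V`, `X^w = U V X`, `X^(2 D) = U² V²`, `X^(3 D) = U³ V³`, and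
  `P (1 - X^D) (1 - X^3) (1 - X^2) = (1 - U³V³) (1 - U) (1 - X²) + U (1 - U²V²) (1 - V) (1 - X³) + U³V² (1 - UV) (1 - X³) (1 - X²)`;
  `keyVal (3k+2) (2J-1) (1 + X) = (1 + X) + U X² (1 + V / X) + (1 + X) U² V X²` (`X^(b + j) = U V X`, `X^(2b+j-1) = U² V X²`).
  So `P (1 - X^3) (1 - X^D) (1 - X^2) = keyVal (1 - X^w) (1 - X^D) (1 - X^2)` by `ring` (use `(1 - X²) = (1 - X)(1 + X)`), and `(1 - X^D) (1 - X^2) ≠ 0`.
* `three_se2`: `b = 3 k + 1` and no `n` with `se n = w - 1`.  The orbit (`t = 2`): `se i = 3 i` for `i ≤ k` (`runB_se`, `(b + 1) / 3 = k`, `(b + 1) % 3 = 2`), place `3 k + 2 + 2 i` at step `k + i` as long as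
  it is `< w`; it does not pass through `w - 1`, so it hits `w`: `w = 3 k + 2 + 2 J`, `J ≥ 1`.  Then place `0` at step `k + J`, places `3 i` at step `k + J + i` for `i ≤ k`, place
  `3 k + 3 + 2 i` at step `2 k + J + 1 + i` for `i < J` (the last one is `w - 1 = 3 k + 3 + 2 (J - 1)`), then place `1` at step `2 k + 2 J + 1`, places `1 + 3 i` for `i ≤ k`, the last one is `b`.
  So `P = ∑_{i<k} X^(3i) + X^(3k) ∑_{i<J} X^(2i) + X^(w-2) ∑_{i≤k} X^(3i) + X^(w-2+3k+3) ∑_{i<J} X^(2i) + X^(2w-1) ∑_{i≤k} X^(3i)`.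
* `three_id2`: hence `P (1 - X^3) (1 - X^2) = (1 - U)(1 - X²) + U (1 - V)(1 - X³) + U V ((1 - U X³)(1 - X²) + U X³ (1 - V)(1 - X³)) + U² V² X³ (1 - U X³)(1 - X²)` and
  `P (1 - X^3) = keyVal (3k+2) (2J+1) (1 - X^w)` (checked).
* `three`: `q₀ = (b + 1) % 3 ∈ {1, 2}` (`runB_mod`).  If some `se n = w - 1`: `exc_par` with `t = 2`; `J = 1`: `w = 3 (k + 1)`, `w - b = 3`; `J ≥ 2`: `key_not` with `j = 2 J - 1`.
  If not: `q₀ = 2` gives `key_not` with `j = 2 J + 1`.  `q₀ = 1`, `b = 3 k` is impossible: places `3 k + 2 + 2 i`, it does not pass through `w - 1`, so `w = 3 k + 2 + 2 J'` and place `0`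
  at step `k + J'`, then places `3 i`, `i ≤ k`, at step `k + J' + i`, so place `3 k = b` at step `2 k + J' < w - 1`, contradiction to `xs_ne`.
-/

set_option autoImplicit false

namespace Pool.Agent.Helper27.OC

open Finset Polynomial Pool.Agent.Helper62.OB Pool.Agent.Helper81

/-- the place at step `j`, when the number of complete turns is `q` -/
theorem threeB_place {w b : ℕ} (hb : b < w) (h : Orb w b 2) {j : ℕ} (hj : j < w) (q m : ℕ)
    (hm : m < w) (hs : 2 + se w b 2 j = m + w * q) : xs w b 2 j = m := by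
  rw [← add_se_mod hb h hj, hs, Nat.add_mul_mod_self_left, Nat.mod_eq_of_lt hm]

theorem threeB_low {w b : ℕ} (hb : b < w) (h : Orb w b 2) {j : ℕ} (hj : j < w) (q m : ℕ)
    (hm : m < b) (hs : 2 + se w b 2 j = m + w * q) : se w b 2 (j + 1) = se w b 2 j + 3 := by
  have h1 := threeB_place hb h hj q m (by omega) hs
  rw [se_succ, ep, h1, if_pos hm]

theorem threeB_high {w b : ℕ} (hb : b < w) (h : Orb w b 2) {j : ℕ} (hj : j < w) (q m : ℕ)
    (hm : b ≤ m) (hmw : m < w) (hs : 2 + se w b 2 j = m + w * q) :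
    se w b 2 (j + 1) = se w b 2 j + 2 := by
  have h1 := threeB_place hb h hj q m hmw hs
  rw [se_succ, ep, h1, if_neg (by omega)]

/-- a run of `n` low places -/
theorem threeB_runLow {w b : ℕ} (hb : b < w) (h : Orb w b 2) (j q m n : ℕ)
    (hs : 2 + se w b 2 j = m + w * q) (hn : m + 3 * n < b + 3) (hj : j + n ≤ w) :
    ∀ i ≤ n, se w b 2 (j + i) = se w b 2 j + 3 * i := by
  intro i
  induction i with
  | zero => intro _; simp
  | succ i ih =>
    intro hi
    have h1 := ih (by omega)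
    have h2 := threeB_low hb h (j := j + i) (by omega) q (m + 3 * i) (by omega) (by omega)
    rw [← add_assoc, h2, h1]
    ring

/-- a run of `n` high places -/
theorem threeB_runHigh {w b : ℕ} (hb : b < w) (h : Orb w b 2) (j q m n : ℕ)
    (hs : 2 + se w b 2 j = m + w * q) (hbm : b ≤ m) (hn : m + 2 * n < w + 2) (hj : j + n ≤ w) :
    ∀ i ≤ n, se w b 2 (j + i) = se w b 2 j + 2 * i := by
  intro i
  induction i with
  | zero => intro _; simp
  | succ i ih =>
    intro hi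
    have h1 := ih (by omega)
    have h2 := threeB_high hb h (j := j + i) (by omega) q (m + 2 * i) (by omega) (by omega)
      (by omega)
    rw [← add_assoc, h2, h1]
    ring

theorem three_se2 (w b : ℕ) (htb : 2 < b) (hb : b < w - 1) (h : Orb w b 2)
    (hq : (b + 1) % 3 = 2) (hno : ∀ n < w, se w b 2 n ≠ w - 1) :
    ∃ k J, 1 ≤ k ∧ 1 ≤ J ∧ b = 3 * k + 1 ∧ w = 3 * k + 2 + 2 * J ∧
      ∑ i ∈ range w, (X : ℤ[X]) ^ se w b 2 i =
        ∑ i ∈ range k, X ^ (3 * i) + X ^ (3 * k) * ∑ i ∈ range J, X ^ (2 * i) +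
        X ^ (w - 2) * ∑ i ∈ range (k + 1), X ^ (3 * i) +
        X ^ (w - 2 + 3 * k + 3) * ∑ i ∈ range J, X ^ (2 * i) +
        X ^ (2 * w - 1) * ∑ i ∈ range (k + 1), X ^ (3 * i) := by
  have hbw : b < w := by omega
  obtain ⟨k, hk⟩ : ∃ k, b = 3 * k + 1 := ⟨(b + 1) / 3, by omega⟩
  have hk1 : (b + 1) / (2 + 1) = k := by omega
  have hA : ∀ i ≤ k, se w b 2 i = 3 * i := by
    intro i hi
    rw [runB_se (by omega) htb hb h i (by rw [hk1]; exact hi)]
    ring
  -- second phase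
  have hsk := hA k le_rfl
  have hB : ∀ n, 3 * k + 2 * n < w → k + n ≤ w → se w b 2 (k + n) = 3 * k + 2 * n := by
    intro n hn hn2
    have h1 := threeB_runHigh hbw h k 0 (3 * k + 2) n (by omega) (by omega) (by omega) hn2 n le_rfl
    rw [h1, hsk]
  obtain ⟨J, hJ⟩ : ∃ J, w = 3 * k + 2 + 2 * J := by
    by_contra hcon
    push Not at hcon
    obtain ⟨J, hJ⟩ : ∃ J, w = 3 * k + 1 + 2 * J := by
      rcases Nat.even_or_odd (w - (3 * k + 2)) with ⟨c, hc⟩ | ⟨c, hc⟩
      · exact absurd (by omega) (hcon c)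
      · exact ⟨c + 1, by omega⟩
    have h1 := hB J (by omega) (by omega)
    exact hno (k + J) (by omega) (by omega)
  have hJ1 : 1 ≤ J := by omega
  have hsJ : se w b 2 (k + J) = 3 * k + 2 * J := hB J (by omega) (by omega)
  -- third phase
  have hC := threeB_runLow hbw h (k + J) 1 0 (k + 1) (by omega) (by omega) (by omega)
  have hsC := hC (k + 1) le_rfl
  -- fourth phase
  have hD := threeB_runHigh hbw h (k + J + (k + 1)) 1 (3 * k + 3) J (by omega) (by omega)
    (by omega) (by omega)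
  have hsD := hD J le_rfl
  -- fifth phase
  have hE := threeB_runLow hbw h (k + J + (k + 1) + J) 2 1 k (by omega) (by omega) (by omega)
  refine ⟨k, J, by omega, hJ1, hk, hJ, ?_⟩
  have hw : w = k + J + (k + 1) + J + (k + 1) := by omega
  have e : ∑ i ∈ range w, (X : ℤ[X]) ^ se w b 2 i =
      ∑ i ∈ range (k + J + (k + 1) + J + (k + 1)), (X : ℤ[X]) ^ se w b 2 i := by
    rw [← hw]
  rw [e, sum_range_add, sum_range_add, sum_range_add, sum_range_add]
  have e1 : ∑ i ∈ range k, (X : ℤ[X]) ^ se w b 2 i = ∑ i ∈ range k, X ^ (3 * i) := by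
    refine sum_congr rfl fun i hi => ?_
    rw [hA i (mem_range.1 hi).le]
  have e2 : ∑ i ∈ range J, (X : ℤ[X]) ^ se w b 2 (k + i) =
      X ^ (3 * k) * ∑ i ∈ range J, X ^ (2 * i) := by
    rw [mul_sum]
    refine sum_congr rfl fun i hi => ?_
    rw [hB i (by have := mem_range.1 hi; omega) (by have := mem_range.1 hi; omega), pow_add]
  have e3 : ∑ i ∈ range (k + 1), (X : ℤ[X]) ^ se w b 2 (k + J + i) =
      X ^ (w - 2) * ∑ i ∈ range (k + 1), X ^ (3 * i) := by
    rw [mul_sum]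
    refine sum_congr rfl fun i hi => ?_
    rw [hC i (mem_range.1 hi).le, hsJ, ← pow_add]
    congr 1
    omega
  have e4 : ∑ i ∈ range J, (X : ℤ[X]) ^ se w b 2 (k + J + (k + 1) + i) =
      X ^ (w - 2 + 3 * k + 3) * ∑ i ∈ range J, X ^ (2 * i) := by
    rw [mul_sum]
    refine sum_congr rfl fun i hi => ?_
    rw [hD i (mem_range.1 hi).le, hsC, hsJ, ← pow_add]
    congr 1
    omega
  have e5 : ∑ i ∈ range (k + 1), (X : ℤ[X]) ^ se w b 2 (k + J + (k + 1) + J + i) =
      X ^ (2 * w - 1) * ∑ i ∈ range (k + 1), X ^ (3 * i) := by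
    rw [mul_sum]
    refine sum_congr rfl fun i hi => ?_
    rw [hE i (by have := mem_range.1 hi; omega), hsD, hsC, hsJ, ← pow_add]
    congr 1
    omega
  rw [e1, e2, e3, e4, e5]

theorem three_no1 (w b : ℕ) (htb : 2 < b) (hb : b < w - 1) (h : Orb w b 2)
    (hq : (b + 1) % 3 = 1) : ∃ n < w, se w b 2 n = w - 1 := by
  by_contra hno
  push Not at hno
  have hbw : b < w := by omega
  obtain ⟨k, hk⟩ : ∃ k, b = 3 * k := ⟨(b + 1) / 3, by omega⟩
  have hk1 : (b + 1) / (2 + 1) = k := by omega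
  have hsk : se w b 2 k = 3 * k := by
    rw [runB_se (by omega) htb hb h k (by rw [hk1])]
    ring
  have hB : ∀ n, 3 * k + 2 * n < w → k + n ≤ w → se w b 2 (k + n) = 3 * k + 2 * n := by
    intro n hn hn2
    have h1 := threeB_runHigh hbw h k 0 (3 * k + 2) n (by omega) (by omega) (by omega) hn2 n le_rfl
    rw [h1, hsk]
  obtain ⟨J, hJ⟩ : ∃ J, w = 3 * k + 2 + 2 * J := by
    by_contra hcon
    push Not at hcon
    obtain ⟨J, hJ⟩ : ∃ J, w = 3 * k + 1 + 2 * J := by
      rcases Nat.even_or_odd (w - (3 * k + 2)) with ⟨c, hc⟩ | ⟨c, hc⟩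
      · exact absurd (by omega) (hcon c)
      · exact ⟨c + 1, by omega⟩
    have h1 := hB J (by omega) (by omega)
    exact hno (k + J) (by omega) (by omega)
  have hsJ : se w b 2 (k + J) = 3 * k + 2 * J := hB J (by omega) (by omega)
  have hC := threeB_runLow hbw h (k + J) 1 0 k (by omega) (by omega) (by omega) k le_rfl
  have h1 := threeB_place hbw h (j := k + J + k) (by omega) 1 (3 * k) (by omega) (by omega)
  exact xs_ne h (k := k + J + k) (by omega) (by omega)

end Pool.Agent.Helper27.OC
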