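import Mathlib
import Pool.Agent.Helper27.OC.Exc
import Pool.Agent.Helper27.OC.ThreeA
import Pool.Agent.Helper27.OC.ThreeB
import Pool.Agent.Helper27.OC.Cancel

/-!
(this file: `three`; the others are in `ThreeA`, `ThreeB`, proved by somebody else)
# OC-13: `t = 2` (closed 3-braids)

`keyVal b j x = 1 + x^b (1 - x + ... ± x^(j-1)) + x^(2b+j-1)`; for odd `j`: `(1 + x) keyVal b j x = (1 + x) + x^b (1 + x^j) + (1 + x) x^(2b+j-1)` (`one_add_mul_altGeom`).
* `three_id1`: `t = 2` in `exc_sum`, `w = 3 k + 1 + 2 J`, `J ≥ 1`, `D = w - 1`.  With `U = X^(3k)`, `V = X^(2J)`: `X^D = U V`, `X^w = U V X`, `X^(2 D) = U² V²`, `X^(3 D) = U³ V³`, and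
  `P (1 - X^D) (1 - X^3) (1 - X^2) = (1 - U³V³) (1 - U) (1 - X²) + U (1 - U²V²) (1 - V) (1 - X³) + U³V² (1 - UV) (1 - X³) (1 - X²)`;
  `keyVal (3k+2) (2J-1) (1 + X) = (1 + X) + U X² (1 + V / X) + (1 + X) U² V X²` (`X^(b + j) = U V X`, `X^(2b+j-1) = U² V X²`).
  So `P (1 - X^3) (1 - X^D) (1 - X^2) = keyVal (1 - X^w) (1 - X^D) (1 - X^2)` by `ring` (use `(1 - X²) = (1 - X)(1 + X)`), and `(1 - X^D) (1 - X^2) ≠ 0`.
* `three_se2`: `b = 3 k + 1` and no `n` with `se n = w - 1`.  The orbit (`t = 2`): `se i = 3 i` for `i ≤ k` (`runB_se`, `(b + 1) / 3 = k`, `(b + 1) % 3 = 2`), place `3 k + 2 + 2 i` at step `k + i` as long as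
  it is `< w`; it does not pass through `w - 1`, so it hits `w`: `w = 3 k + 2 + 2 J`, `J ≥ 1`.  Then place `0` at step `k + J`, places `3 i` at step `k + J + i` for `i ≤ k`, place
  `3 k + 3 + 2 i` at step `2 k + J + 1 + i` for `i < J` (the last one is `w - 1 = 3 k + 3 + 2 (J - 1)`), then place `1` at step `2 k + 2 J + 1`, places `1 + 3 i` for `i ≤ k`, the last one is `b`.
  So `P = ∑_{i<k} X^(3i) + X^(3k) ∑_{i<J} X^(2i) + X^(w-2) ∑_{i≤k} X^(3i) + X^(w-2+3k+3) ∑_{i<J} X^(2i) + X^(2w-1) ∑_{i≤k} X^(3i)`.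
* `three_id2`: hence `P (1 - X^3) (1 - X^2) = (1 - U)(1 - X²) + U (1 - V)(1 - X³) + U V ((1 - U X³)(1 - X²) + U X³ (1 - V)(1 - X³)) + U² V² X³ (1 - U X³)(1 - X²)` and
  `P (1 - X^3) = keyVal (3k+2) (2J+1) (1 - X^w)` (checked).
* `three`: `q₀ = (b + 1) % 3 ∈ {1, 2}` (`runB_mod`).  If some `se n = w - 1`: `exc_par` with `t = 2`; `J = 1`: `w = 3 (k + 1)`, `w - b = 3`; `J ≥ 2`: `key_not` with `j = 2 J - 1`.
  If not: `q₀ = 2` gives `key_not` with `j = 2 J + 1`.  `q₀ = 1`, `b = 3 k` is impossible: places `3 k + 2 + 2 i`, it does not pass through `w - 1`, so `w = 3 k + 2 + 2 J'` and place `0`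
  at step `k + J'`, then places `3 i`, `i ≤ k`, at step `k + J' + i`, so place `3 k = b` at step `2 k + J' < w - 1`, contradiction to `xs_ne`.
-/

set_option autoImplicit false

namespace Pool.Agent.Helper27.OC

open Finset Polynomial Pool.Agent.Helper62.OB Pool.Agent.Helper81

theorem three (w b : ℕ) (htb : 2 < b) (hb : b < w - 1) (h : Orb w b 2)
    (M : Multiset ℕ) (hM : ∀ N ∈ M, 0 < N)
    (hP : ∑ k ∈ range w, (X : ℤ[X]) ^ se w b 2 k = (M.map (fun N => cyclotomic N ℤ)).prod ∨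
      ∑ k ∈ range w, (X : ℤ[X]) ^ se w b 2 k = -(M.map (fun N => cyclotomic N ℤ)).prod) :
    (w - b) ∣ w ∧ (w - b) ∣ 3 := by
  by_cases hex : ∃ n < w, se w b 2 n = w - 1
  · obtain ⟨n, hn, hs⟩ := hex
    obtain ⟨k, J, hk, hJ, hbk, hwk, hnk, hse⟩ := exc_par (le_refl 2) htb hb h hn hs
    by_cases hJ1 : J = 1
    · subst hJ1
      have e : w - b = 3 := by omega
      rw [e]
      exact ⟨⟨k + 1, by omega⟩, dvd_rfl⟩
    · exfalso
      have hid := three_id1 k J w hJ hwk (∑ i ∈ range w, (X : ℤ[X]) ^ se w b 2 i)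
        (exc_sum hwk hnk hse (X : ℤ[X]))
      exact key_not k (2 * J - 1) w hk (by omega) ⟨J - 1, by omega⟩ (by omega) _ hid M hM hP
  · exfalso
    have hm := runB_mod (by omega) htb hb h
    have hq : (b + 1) % 3 = 1 ∨ (b + 1) % 3 = 2 := by omega
    rcases hq with hq | hq
    · exact hex (three_no1 w b htb hb h hq)
    · push Not at hex
      obtain ⟨k, J, hk, hJ, -, hwk, hsum⟩ := three_se2 w b htb hb h hq hex
      have hid := three_id2 k J w hJ hwk _ hsum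
      exact key_not k (2 * J + 1) w hk (by omega) ⟨J, by omega⟩ (by omega) _ hid M hM hP

end Pool.Agent.Helper27.OC
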