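import Mathlib
import Pool.Agent.Helper62.OB.Poly
import Pool.Agent.Helper62.OB.Iter
import Pool.Agent.Helper62.OB.St.Orbit
import Pool.Agent.Helper27.OC.IdA
import Pool.Agent.Helper27.OC.IdB
import Pool.Agent.Helper27.OC.CombA
import Pool.Agent.Helper27.OC.CombB
import Pool.Agent.Helper27.OC.RunA
import Pool.Agent.Helper27.OC.RunB
import Pool.Agent.Helper27.OC.Exc
import Pool.Agent.Helper27.OC.NoExc
import Pool.Agent.Helper27.OC.Three
import Pool.Agent.Helper27.OC.One

/-!
# The main theorem on one-bridge braids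
-/

set_option autoImplicit false

namespace Pool.Agent.Helper27.OC

open Finset Polynomial Pool.Agent.Helper62.OB

theorem dvd_of_N {N w g c : ℕ} (hw : 0 < w) (hN : N = w * g) (h : (N : ℤ) ∣ ((w * c : ℕ) : ℤ)) :
    g ∣ c := by
  rw [hN] at h
  exact Nat.dvd_of_mul_dvd_mul_left hw (Int.natCast_dvd_natCast.1 h)

/-- the case of a cyclotomic factor of order a proper multiple of `w` -/
theorem core {w b t : ℕ} (hb : b < w) (hw2 : 2 ≤ w) (ht : 1 ≤ t) (h : Orb w b t) (M : Multiset ℕ)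
    (hM : ∀ N ∈ M, 0 < N)
    (hP : ∑ k ∈ range w, (X : ℤ[X]) ^ se w b t k = (M.map (fun N => cyclotomic N ℤ)).prod ∨
      ∑ k ∈ range w, (X : ℤ[X]) ^ se w b t k = -(M.map (fun N => cyclotomic N ℤ)).prod)
    (hN : ∃ N ∈ M, w ∣ N ∧ N ≠ w) :
    ((b + 1) ∣ w ∧ (b + 1) ∣ t) ∨ ((w - b) ∣ w ∧ (w - b) ∣ (t + 1)) := by
  obtain ⟨N, hNM, hwN, hNw⟩ := hN
  have hN0 := hM N hNM
  have hdvd : cyclotomic N ℤ ∣ ∑ k ∈ range w, (X : ℤ[X]) ^ se w b t k := by
    have h1 : cyclotomic N ℤ ∣ (M.map (fun N => cyclotomic N ℤ)).prod :=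
      Multiset.dvd_prod (Multiset.mem_map_of_mem _ hNM)
    rcases hP with h2 | h2
    · rw [h2]
      exact h1
    · rw [h2]
      exact (dvd_neg).2 h1
  have hroot := root_cos N hN0 w (se w b t) hdvd
  obtain ⟨g, hg⟩ := hwN
  have hg2 : 2 ≤ g := by
    rcases Nat.lt_or_ge g 2 with h1 | h1
    · interval_cases g
      · omega
      · omega
    · exact h1
  rcases Nat.lt_or_ge (2 * b) w with hc | hc
  · left
    obtain ⟨h1, h2⟩ := idA w b t N hb hw2 h hN0 ⟨g, hg⟩ hc hroot
    refine combA w b t g hb hw2 ht h hg2 ?_ ?_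
    · exact dvd_of_N (by omega) hg (by push_cast; exact h1)
    · intro j hj hj2
      exact dvd_of_N (by omega) hg (by push_cast; exact h2 j hj hj2)
  · right
    obtain ⟨h1, h2⟩ := idB w b t N hb hw2 h hN0 ⟨g, hg⟩ (by omega) hroot
    refine combB w b t g hb hw2 ht h hg2 ?_ ?_
    · exact dvd_of_N (by omega) hg (by push_cast; exact h1)
    · intro j hj hj2
      exact dvd_of_N (by omega) hg (by push_cast; exact h2 j hj hj2)

theorem cond_of_cyc2 (w b t : ℕ) (hb : b < w) (ht : 1 ≤ t) (h : Orb w b t)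
    (hreg : t ≤ 2 ∨ b < t ∨ w + 2 < 2 * ((t + 1) * ((b + 1) / (t + 1) + 1))) (M : Multiset ℕ)
    (hM : ∀ N ∈ M, 0 < N)
    (hP : ∑ k ∈ range w, (X : ℤ[X]) ^ se w b t k = (M.map (fun N => cyclotomic N ℤ)).prod ∨
      ∑ k ∈ range w, (X : ℤ[X]) ^ se w b t k = -(M.map (fun N => cyclotomic N ℤ)).prod) :
    ((b + 1) ∣ w ∧ (b + 1) ∣ t) ∨ ((w - b) ∣ w ∧ (w - b) ∣ (t + 1)) ∨ t = 1 := by
  rcases Nat.eq_zero_or_pos b with hb0 | hb0
  · left
    rw [hb0]
    exact ⟨one_dvd _, one_dvd _⟩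
  by_cases hb1 : b = w - 1
  · right
    left
    have : w - b = 1 := by omega
    rw [this]
    exact ⟨one_dvd _, one_dvd _⟩
  have hb2 : b < w - 1 := by omega
  by_cases ht1 : t = 1
  · exact Or.inr (Or.inr ht1)
  rcases lt_trichotomy b t with hc | hc | hc
  · rcases exA hb0 hb2 hc h M hM hP with h1 | h1
    · rcases core hb (by omega) ht h M hM hP h1 with h2 | h2
      · exact Or.inl h2
      · exact Or.inr (Or.inl h2)
    · exact Or.inl h1
  · exfalso
    have h1 : xs w b t 0 = b := by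
      change t % w = b
      rw [← hc]
      exact Nat.mod_eq_of_lt hb
    exact xs_ne h (show 0 < w - 1 by omega) h1
  · right
    left
    rcases (show t = 2 ∨ 3 ≤ t by omega) with h2 | h3
    · subst h2
      exact three w b hc hb2 h M hM hP
    · have hreg' : w + 2 < 2 * ((t + 1) * ((b + 1) / (t + 1) + 1)) := by
        rcases hreg with h1 | h1 | h1
        · omega
        · omega
        · exact h1
      rcases exB ht hc hb2 h hreg' M hM hP with h1 | ⟨n, hn, hs⟩
      · rcases core hb (by omega) ht h M hM hP h1 with h2 | h2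
        · exfalso
          have := Nat.le_of_dvd (by omega) h2.2
          omega
        · exact h2
      · obtain ⟨k, J, hk, hJ, hbk, hw, hnk, hse⟩ := exc_par (by omega) hc hb2 h hn hs
        rcases (show J = 1 ∨ 2 ≤ J by omega) with hJ1 | hJ2
        · subst hJ1
          have e1 : w - b = t + 1 := by omega
          rw [e1]
          refine ⟨⟨k + 1, ?_⟩, dvd_rfl⟩
          rw [hw]
          ring
        · exact (no_exc w t k J (se w b t) h3 hk hJ2 hw
            (fun x => exc_sum hw hnk hse x) M hM hP).elim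

/-- The Li-Ni statement for one-bridge braids. -/
theorem main (m b t : ℕ) (hb : b ≤ m) (ht : 1 ≤ t)
    (hreg : t ≤ 2 ∨ b < t ∨ m + 3 < 2 * ((t + 1) * ((b + 1) / (t + 1) + 1)))
    (hK : IsKnot (oneBridge m b t))
    (hΔ : IsCyclotomicProduct (alexander (oneBridge m b t))) :
    IsIterTorus ⟨m, oneBridge m b t⟩ ∧
      (((b + 1) ∣ (m + 1) ∧ (b + 1) ∣ t) ∨
        ((m + 1 - b) ∣ (m + 1) ∧ (m + 1 - b) ∣ (t + 1)) ∨ t = 1) := by
  have horb := orb_of_knot m b t hb hK
  obtain ⟨M, hM, hP⟩ := P_of_cyc m b t hb ht horb hΔ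
  have hc := cond_of_cyc2 (m + 1) b t (by omega) ht horb hreg M hM hP
  refine ⟨?_, hc⟩
  rcases hc with h1 | h1 | h1
  · exact iter_of_cond m b t hb horb (Or.inl h1)
  · exact iter_of_cond m b t hb horb (Or.inr h1)
  · subst h1
    rcases Nat.eq_zero_or_pos b with hb0 | hb0
    · exact iter_of_cond m b 1 hb horb (Or.inl (by rw [hb0]; exact ⟨one_dvd _, one_dvd _⟩))
    · exact one_iter m b hb (one_even hb0 (by omega) horb)

end Pool.Agent.Helper27.OC
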